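import Mathlib
import Pool.Agent.H249R2.PM.Farkas

/-!
Fractional matchings and covers of a finite family of sets: duality, and a fractional matching with
small support.
-/

set_option autoImplicit false

namespace Pool.Agent.Q257.Afl

open Finset

variable {κ : Type} [Fintype κ] [DecidableEq κ]

/-- `w` is a fractional matching supported on `G` -/
def FM (G : Finset (Finset κ)) (w : Finset κ → ℝ) : Prop :=
  (∀ I ∈ G, 0 ≤ w I) ∧ ∀ i, ∑ I ∈ G.filter (fun I => i ∈ I), w I ≤ 1

theorem lp_dual (G : Finset (Finset κ)) (τ : ℝ)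
    (hno : ¬ ∃ w, FM G w ∧ τ ≤ ∑ I ∈ G, w I) :
    ∃ c : κ → ℝ, (∀ i, 0 ≤ c i ∧ c i ≤ 1) ∧ (∀ I ∈ G, 1 ≤ ∑ i ∈ I, c i) ∧ ∑ i, c i ≤ τ := by
  classical
  let ℓ : (G ⊕ κ) → ((G → ℝ) →ₗ[ℝ] ℝ) := Sum.elim (fun I => -(LinearMap.proj I))
    (fun i => ∑ I : G, (if i ∈ I.1 then (1 : ℝ) else 0) • LinearMap.proj I)
  let b : (G ⊕ κ) → ℝ := Sum.elim (fun _ => 0) (fun _ => 1)
  let f : (G → ℝ) →ₗ[ℝ] ℝ := ∑ I : G, LinearMap.proj I
  have hℓ1 : ∀ I x, ℓ (Sum.inl I) x = - x I := fun I x => by simp [ℓ]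
  have hℓ2 : ∀ i x, ℓ (Sum.inr i) x = ∑ I : G, (if i ∈ I.1 then (1 : ℝ) else 0) * x I := fun i x => by
    simp only [ℓ, Sum.elim_inr, LinearMap.sum_apply, LinearMap.smul_apply, LinearMap.proj_apply,
      smul_eq_mul]
  have hf : ∀ x, f x = ∑ I : G, x I := fun x => by simp [f]
  obtain ⟨w0, u, h0, hu, hid⟩ := Pool.Agent.H249R2.PM.farkas_fin ℓ b f τ 0 (by
    rintro (I | i)
    · simp [b]
    · simp [b]) (by
    intro x hx
    by_contra hlt
    push Not at hlt
    apply hno
    let w : Finset κ → ℝ := fun I => if h : I ∈ G then x ⟨I, h⟩ else 0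
    have hw : ∀ I : G, w I.1 = x I := fun I => by simp [w, I.2]
    refine ⟨w, ⟨fun I hI => ?_, fun i => ?_⟩, ?_⟩
    · have := hx (Sum.inl ⟨I, hI⟩)
      rw [hℓ1] at this
      simp only [b, Sum.elim_inl] at this
      have h2 := hw ⟨I, hI⟩
      simp only at h2
      rw [h2]
      linarith
    · have := hx (Sum.inr i)
      rw [hℓ2] at this
      simp only [b, Sum.elim_inr] at this
      refine le_trans (le_of_eq ?_) this
      rw [Finset.sum_filter, ← Finset.sum_coe_sort G (fun I => if i ∈ I then w I else 0)]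
      refine Finset.sum_congr rfl fun I _ => ?_
      rw [hw]
      split_ifs <;> simp
    · rw [hf] at hlt
      rw [← Finset.sum_coe_sort G (fun I => w I)]
      rw [Finset.sum_congr rfl (fun I _ => hw I)]
      exact hlt.le)
  have e0 := hid 0
  simp only [hf, Fintype.sum_sum_type, hℓ1, hℓ2, b, Sum.elim_inl, Sum.elim_inr, Pi.zero_apply,
    mul_zero, sum_const_zero, sub_zero, neg_zero, mul_one, zero_add] at e0
  have e1 : ∀ I : G, 1 ≤ ∑ i ∈ I.1, u (Sum.inr i) := by
    intro I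
    have e := hid (Pi.single I 1)
    simp only [hf, Fintype.sum_sum_type, hℓ1, hℓ2, b, Sum.elim_inl, Sum.elim_inr, Pi.single_apply,
      mul_ite, mul_one, mul_zero, Finset.sum_ite_eq', mem_univ, if_true, zero_sub, neg_neg] at e
    have e2 : ∑ x, u (Sum.inr x) * (1 - if x ∈ I.1 then (1 : ℝ) else 0) =
        ∑ x, u (Sum.inr x) - ∑ i ∈ I.1, u (Sum.inr i) := by
      rw [← Finset.sum_filter_add_sum_filter_not univ (fun x => x ∈ I.1) (fun x => u (Sum.inr x))]
      rw [← Finset.sum_filter_add_sum_filter_not univ (fun x => x ∈ I.1)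
        (fun x => u (Sum.inr x) * (1 - if x ∈ I.1 then (1 : ℝ) else 0))]
      have a1 : ∑ x ∈ univ.filter (fun x => x ∈ I.1), u (Sum.inr x) *
          (1 - if x ∈ I.1 then (1 : ℝ) else 0) = 0 := by
        refine Finset.sum_eq_zero fun x hx => ?_
        rw [if_pos (mem_filter.1 hx).2]
        ring
      have a2 : ∑ x ∈ univ.filter (fun x => ¬ x ∈ I.1), u (Sum.inr x) *
          (1 - if x ∈ I.1 then (1 : ℝ) else 0) = ∑ x ∈ univ.filter (fun x => ¬ x ∈ I.1),
          u (Sum.inr x) := by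
        refine Finset.sum_congr rfl fun x hx => ?_
        rw [if_neg (mem_filter.1 hx).2]
        ring
      have a3 : univ.filter (fun x => x ∈ I.1) = I.1 := by ext; simp
      rw [a1, a2, a3]
      ring
    rw [e2] at e
    have := hu (Sum.inl I)
    linarith
  refine ⟨fun i => min (u (Sum.inr i)) 1, fun i => ⟨le_min (hu _) zero_le_one, min_le_right _ _⟩,
    fun I hI => ?_, ?_⟩
  · by_cases h : ∃ i ∈ I, 1 ≤ u (Sum.inr i)
    · obtain ⟨i, hi, hi1⟩ := h
      calc (1 : ℝ) = min (u (Sum.inr i)) 1 := by rw [min_eq_right hi1]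
        _ ≤ _ := Finset.single_le_sum (f := fun i => min (u (Sum.inr i)) 1)
          (fun j _ => le_min (hu _) zero_le_one) hi
    · push Not at h
      refine (e1 ⟨I, hI⟩).trans (le_of_eq (Finset.sum_congr rfl fun i hi => ?_))
      exact (min_eq_left (h i hi).le).symm
  · calc ∑ i, min (u (Sum.inr i)) 1 ≤ ∑ i, u (Sum.inr i) :=
        Finset.sum_le_sum fun i _ => min_le_left _ _
      _ ≤ τ := by linarith

theorem lp_small (G : Finset (Finset κ)) (hG : ∀ I ∈ G, I.Nonempty) (τ : ℝ) :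
    ∀ w, FM G w → τ ≤ ∑ I ∈ G, w I → ∃ G' ⊆ G, ∃ w', FM G' w' ∧ τ ≤ ∑ I ∈ G', w' I ∧
      G'.card ≤ Fintype.card κ := by
  classical
  induction hc : G.card using Nat.strong_induction_on generalizing G with
  | _ N ih =>
    intro w hw hτ
    by_cases hN : G.card ≤ Fintype.card κ
    · exact ⟨G, subset_rfl, w, hw, hτ, hN⟩
    push Not at hN
    let L : (G → ℝ) →ₗ[ℝ] (κ → ℝ) := LinearMap.pi
      (fun i => ∑ I : G, (if i ∈ I.1 then (1 : ℝ) else 0) • LinearMap.proj I)
    have hL : ∀ x i, L x i = ∑ I : G, (if i ∈ I.1 then (1 : ℝ) else 0) * x I := fun x i => by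
      simp only [L, LinearMap.pi_apply, LinearMap.sum_apply, LinearMap.smul_apply,
        LinearMap.proj_apply, smul_eq_mul]
    have hker : LinearMap.ker L ≠ ⊥ := by
      apply LinearMap.ker_ne_bot_of_finrank_lt
      rw [Module.finrank_fintype_fun_eq_card, Module.finrank_fintype_fun_eq_card,
        Fintype.card_coe]
      exact hN
    obtain ⟨z0, hz0, hz0n⟩ := (Submodule.ne_bot_iff _).1 hker
    obtain ⟨z, hz, hzn, hzs⟩ : ∃ z, L z = 0 ∧ z ≠ 0 ∧ 0 ≤ ∑ I : G, z I := by
      rcases le_total 0 (∑ I : G, z0 I) with h | h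
      · exact ⟨z0, hz0, hz0n, h⟩
      · refine ⟨-z0, ?_, by simpa using hz0n, ?_⟩
        · rw [map_neg, LinearMap.mem_ker.1 hz0, neg_zero]
        · simp only [Pi.neg_apply, sum_neg_distrib]
          linarith
    let Z : Finset κ → ℝ := fun I => if h : I ∈ G then z ⟨I, h⟩ else 0
    have hZ : ∀ I : G, Z I.1 = z I := fun I => by simp [Z, I.2]
    have hZsum : ∑ I ∈ G, Z I = ∑ I : G, z I := by
      rw [← Finset.sum_coe_sort G (fun I => Z I)]
      exact Finset.sum_congr rfl (fun I _ => hZ I)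
    have hZv : ∀ i, ∑ I ∈ G.filter (fun I => i ∈ I), Z I = 0 := by
      intro i
      rw [Finset.sum_filter, ← Finset.sum_coe_sort G (fun I => if i ∈ I then Z I else 0)]
      have h0 : ∑ I : G, (if i ∈ I.1 then (1 : ℝ) else 0) * z I = 0 := by
        rw [← hL, hz]
        rfl
      refine Eq.trans (Finset.sum_congr rfl fun I _ => ?_) h0
      rw [hZ]
      split_ifs <;> simp
    have hneg : ∃ I ∈ G, Z I < 0 := by
      by_contra hcon
      push Not at hcon
      apply hzn
      funext I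
      obtain ⟨i, hi⟩ := hG I.1 I.2
      have h1 := (Finset.sum_eq_zero_iff_of_nonneg (s := G.filter (fun I => i ∈ I)) (f := Z)
        (fun J hJ => hcon J (mem_filter.1 hJ).1)).1 (hZv i) I.1 (mem_filter.2 ⟨I.2, hi⟩)
      rw [← hZ, h1]
      rfl
    obtain ⟨I1, hI1, hI1n⟩ := hneg
    obtain ⟨I0, hI0, hmin⟩ := Finset.exists_min_image (G.filter (fun I => Z I < 0))
      (fun I => w I / (- Z I)) ⟨I1, mem_filter.2 ⟨hI1, hI1n⟩⟩
    obtain ⟨hI0G, hI0n⟩ := mem_filter.1 hI0
    set t : ℝ := w I0 / (- Z I0) with ht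
    have ht0 : 0 ≤ t := div_nonneg (hw.1 I0 hI0G) (by linarith)
    set w' : Finset κ → ℝ := fun I => w I + t * Z I with hw'
    have hw'0 : w' I0 = 0 := by
      simp only [hw', ht]
      have h1 : Z I0 ≠ 0 := hI0n.ne
      have h2 : w I0 / -Z I0 * Z I0 = - w I0 := by
        rw [div_neg, neg_mul, div_mul_cancel₀ _ h1]
      rw [h2]
      ring
    have hw'nn : ∀ I ∈ G, 0 ≤ w' I := by
      intro I hI
      simp only [hw']
      rcases le_or_gt 0 (Z I) with h | h
      · have := hw.1 I hI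
        positivity
      · have h1 := hmin I (mem_filter.2 ⟨hI, h⟩)
        rw [le_div_iff₀ (by linarith)] at h1
        linarith
    have hsumG : ∑ I ∈ G, w' I = ∑ I ∈ G, w I + t * ∑ I ∈ G, Z I := by
      simp only [hw', sum_add_distrib, Finset.mul_sum]
    have hE : ∀ T : Finset (Finset κ), ∑ I ∈ T.erase I0, w' I = ∑ I ∈ T, w' I := by
      intro T
      by_cases h : I0 ∈ T
      · rw [← Finset.add_sum_erase T w' h, hw'0, zero_add]
      · rw [Finset.erase_eq_of_notMem h]
    obtain ⟨G', hG', w'', h1, h2, h3⟩ := ih (G.erase I0).card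
      (by rw [← hc]; exact Finset.card_erase_lt_of_mem hI0G) (G.erase I0)
      (fun I hI => hG I (mem_of_mem_erase hI)) rfl w'
      ⟨fun I hI => hw'nn I (mem_of_mem_erase hI), fun i => by
        have e1 : (G.erase I0).filter (fun I => i ∈ I) = (G.filter (fun I => i ∈ I)).erase I0 := by
          ext I
          simp only [mem_filter, mem_erase]
          tauto
        rw [e1, hE]
        have e2 : ∑ I ∈ G.filter (fun I => i ∈ I), w' I =
            ∑ I ∈ G.filter (fun I => i ∈ I), w I + t * ∑ I ∈ G.filter (fun I => i ∈ I), Z I := by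
          simp only [hw', sum_add_distrib, Finset.mul_sum]
        rw [e2, hZv, mul_zero, add_zero]
        exact hw.2 i⟩
      (by
        rw [hE, hsumG, hZsum]
        have := mul_nonneg ht0 hzs
        linarith)
    exact ⟨G', hG'.trans (erase_subset _ _), w'', h1, h2, h3⟩

end Pool.Agent.Q257.Afl
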