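import Mathlib
import Pool.Agent.Helper954.Hopf.D1c

/-!
A combinatorial form of Dold's theorem for `ZMod p`: labellings of the nonzero sign vectors (partial
functions from `n` points to `ZMod p`) with less than `n` levels.
-/

set_option autoImplicit false

namespace Pool.Agent.Q257.Afl

open Finset Filter Topology
open Pool.Agent.Helper954.Hopf.Dold

/-- partial functions, given by their graph -/
def PF {p n : ℕ} (P : Finset (Fin n × ZMod p)) : Prop :=
  ∀ v l l', (v, l) ∈ P → (v, l') ∈ P → l = l'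

/-- shift of a sign vector -/
def shP {p n : ℕ} (P : Finset (Fin n × ZMod p)) : Finset (Fin n × ZMod p) :=
  P.image (fun x => (x.1, x.2 + 1))

theorem mem_shP {p n : ℕ} (P : Finset (Fin n × ZMod p)) (v : Fin n) (l : ZMod p) :
    (v, l) ∈ shP P ↔ (v, l - 1) ∈ P := by
  unfold shP
  rw [mem_image]
  constructor
  · rintro ⟨⟨v', l'⟩, h, h2⟩
    simp only [Prod.mk.injEq] at h2
    obtain ⟨rfl, rfl⟩ := h2
    simpa using h
  · intro h
    exact ⟨(v, l - 1), h, by simp⟩

/-- support above a threshold -/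
noncomputable def su {p n : ℕ} [NeZero p] (x : VV p n) (t : ℝ) : Finset (Fin n × ZMod p) :=
  open Classical in univ.filter (fun z => t < x z.1 z.2)

theorem mem_su {p n : ℕ} [NeZero p] (x : VV p n) (t : ℝ) (v : Fin n) (l : ZMod p) :
    (v, l) ∈ su x t ↔ t < x v l := by
  classical
  unfold su
  simp

theorem su_sh {p n : ℕ} [NeZero p] (x : VV p n) (t : ℝ) : su (sh x) t = shP (su x t) := by
  ext ⟨v, l⟩
  rw [mem_su, mem_shP, mem_su]
  rfl

theorem su_anti {p n : ℕ} [NeZero p] (x : VV p n) {t t' : ℝ} (h : t ≤ t') : su x t' ⊆ su x t := by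
  rintro ⟨v, l⟩ hv
  rw [mem_su] at hv ⊢
  linarith

theorem su_ev {p n : ℕ} [NeZero p] (x : VV p n) (t : ℝ) (hx : ∀ i l, x i l ≠ t) :
    ∀ᶠ y in 𝓝 x, (∀ i l, y i l ≠ t) ∧ su y t = su x t := by
  have h1 : ∀ᶠ y in 𝓝 x, ∀ i, ∀ l, (y i l ≠ t ∧ (t < y i l ↔ t < x i l)) := by
    rw [eventually_all]
    intro i
    rw [eventually_all]
    intro l
    have hc : Continuous (fun y : VV p n => y i l) := by fun_prop
    rcases lt_or_gt_of_ne (hx i l) with h | h
    · filter_upwards [(hc.tendsto x).eventually (gt_mem_nhds h)] with y hy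
      exact ⟨ne_of_lt hy, ⟨fun h2 => absurd hy (not_lt.2 h2.le), fun h2 => absurd h (not_lt.2 h2.le)⟩⟩
    · filter_upwards [(hc.tendsto x).eventually (lt_mem_nhds h)] with y hy
      exact ⟨ne_of_gt hy, ⟨fun _ => h, fun _ => hy⟩⟩
  filter_upwards [h1] with y hy
  refine ⟨fun i l => (hy i l).1, ?_⟩
  ext ⟨v, l⟩
  rw [mem_su, mem_su]
  exact (hy v l).2

/-- **No labelling with less than `n` levels.** -/
theorem zp_labels (p : ℕ) [Fact p.Prime] (n m : ℕ) (hm : m < n)
    (lev : Finset (Fin n × ZMod p) → ℕ) (lab : Finset (Fin n × ZMod p) → ZMod p)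
    (hlev : ∀ P, PF P → P.Nonempty → lev P < m)
    (hls : ∀ P, PF P → P.Nonempty → lev (shP P) = lev P)
    (hlabs : ∀ P, PF P → P.Nonempty → lab (shP P) = lab P + 1)
    (hcons : ∀ P Q, PF Q → P.Nonempty → P ⊆ Q → lev P = lev Q → lab P = lab Q) : False := by
  classical
  set cond : VV p n → Fin m → ℝ → Prop := fun x j t =>
    (∀ i l, x i l ≠ t) ∧ PF (su x t) ∧ (su x t).Nonempty ∧ lev (su x t) = j with hcond
  have key : ∀ x j t t', cond x j t → cond x j t' → lab (su x t) = lab (su x t') := by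
    intro x j t t' h1 h2
    rcases le_total t t' with h | h
    · exact (hcons _ _ h1.2.1 h2.2.2.1 (su_anti x h) (h2.2.2.2.trans h1.2.2.2.symm)).symm
    · exact hcons _ _ h2.2.1 h1.2.2.1 (su_anti x h) (h1.2.2.2.trans h2.2.2.2.symm)
  set O : Fin m → Set (VV p n) := fun j => {x | ∃ t, cond x j t} with hO
  set labJ : Fin m → VV p n → ZMod p := fun j x =>
    if h : ∃ t, cond x j t then lab (su x h.choose) else 0 with hlabJ
  have hlabJ' : ∀ j x t, cond x j t → labJ j x = lab (su x t) := by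
    intro j x t ht
    have h : ∃ t, cond x j t := ⟨t, ht⟩
    rw [hlabJ]
    simp only [dif_pos h]
    exact key x j _ _ h.choose_spec ht
  have hev : ∀ x j t, cond x j t → ∀ᶠ y in 𝓝 x, cond y j t ∧ su y t = su x t := by
    intro x j t h
    filter_upwards [su_ev x t h.1] with y hy
    refine ⟨⟨hy.1, ?_, ?_, ?_⟩, hy.2⟩
    · rw [hy.2]; exact h.2.1
    · rw [hy.2]; exact h.2.2.1
    · rw [hy.2]; exact h.2.2.2
  have hPFsh : ∀ P : Finset (Fin n × ZMod p), PF P → PF (shP P) := by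
    intro P hP v l l' h1 h2
    rw [mem_shP] at h1 h2
    have := hP v _ _ h1 h2
    simpa using this
  have hnesh : ∀ P : Finset (Fin n × ZMod p), P.Nonempty → (shP P).Nonempty := fun P hP =>
    hP.image _
  have hsh : ∀ x j t, cond x j t → cond (sh x) j t := by
    intro x j t h
    refine ⟨fun i l => h.1 i (l - 1), ?_, ?_, ?_⟩
    · rw [su_sh]; exact hPFsh _ h.2.1
    · rw [su_sh]; exact hnesh _ h.2.2.1
    · rw [su_sh, hls _ h.2.1 h.2.2.1]; exact h.2.2.2
  obtain ⟨x, hx, hxO⟩ := D1c.join_cover p n (J := Fin m) (by simpa using hm) O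
    (by
      intro j
      rw [isOpen_iff_mem_nhds]
      rintro x ⟨t, ht⟩
      filter_upwards [hev x j t ht] with y hy
      exact ⟨t, hy.1⟩) labJ
    (by
      rintro j x ⟨t, ht⟩
      filter_upwards [hev x j t ht] with y hy
      rw [hlabJ' j y t hy.1, hlabJ' j x t ht, hy.2])
    (by
      rintro j x ⟨t, ht⟩
      exact ⟨t, hsh x j t ht⟩)
    (by
      rintro j x ⟨t, ht⟩
      rw [hlabJ' j _ t (hsh x j t ht), hlabJ' j x t ht, su_sh]
      exact hlabs _ ht.2.1 ht.2.2.1)
  obtain ⟨h0, h1, h2⟩ := hx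
  have hpos : ∃ i l, 0 < x i l := by
    by_contra hcon
    push Not at hcon
    have : ∑ i, ∑ l, x i l ≤ 0 := Finset.sum_nonpos fun i _ => Finset.sum_nonpos fun l _ => hcon i l
    rw [h1] at this
    linarith
  obtain ⟨i, l, hil⟩ := hpos
  have hfin : (Set.range fun z : Fin n × ZMod p => x z.1 z.2).Finite := Set.finite_range _
  obtain ⟨t, ⟨ht0, ht1⟩, ht2⟩ := ((Set.Ioo_infinite hil).diff hfin).nonempty
  have hne : ∀ i l, x i l ≠ t := fun i l h => ht2 ⟨(i, l), h⟩
  have hPF : PF (su x t) := by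
    intro v l l' hl hl'
    rw [mem_su] at hl hl'
    by_contra hll
    rcases h2 v l l' hll with h | h
    · rw [h] at hl; linarith
    · rw [h] at hl'; linarith
  have hN : (su x t).Nonempty := ⟨(i, l), (mem_su x t i l).2 ht1⟩
  exact hxO ⟨lev (su x t), hlev _ hPF hN⟩ ⟨t, hne, hPF, hN, rfl⟩

end Pool.Agent.Q257.Afl
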