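import Mathlib
import Pool.Agent.Q257.Afl.Zp

/-!
The theorem of Alon, Frankl and Lovász on monochromatic matchings in colourings of all `r`-subsets,
for matchings of prime size.
-/

set_option autoImplicit false

namespace Pool.Agent.Q257.Afl

open Finset

variable {p n q r : ℕ}

/-- the class of a sign -/
def cl (P : Finset (Fin n × ZMod p)) (l : ZMod p) : Finset (Fin n) :=
  (P.filter (fun z => z.2 = l)).image Prod.fst

theorem mem_cl (P : Finset (Fin n × ZMod p)) (l : ZMod p) (v : Fin n) : v ∈ cl P l ↔ (v, l) ∈ P := by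
  unfold cl
  rw [mem_image]
  constructor
  · rintro ⟨⟨v', l'⟩, h, rfl⟩
    rw [mem_filter] at h
    obtain ⟨h1, h2⟩ := h
    simp only at h2
    subst h2
    exact h1
  · intro h
    exact ⟨(v, l), mem_filter.2 ⟨h, rfl⟩, rfl⟩

theorem cl_shP (P : Finset (Fin n × ZMod p)) (l : ZMod p) : cl (shP P) l = cl P (l - 1) := by
  ext v
  rw [mem_cl, mem_cl, mem_shP]

theorem cl_mono {P Q : Finset (Fin n × ZMod p)} (h : P ⊆ Q) (l : ZMod p) : cl P l ⊆ cl Q l := by
  intro v hv
  rw [mem_cl] at hv ⊢
  exact h hv

theorem cl_disj {P : Finset (Fin n × ZMod p)} (hP : PF P) {l l' : ZMod p} (h : l ≠ l') :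
    Disjoint (cl P l) (cl P l') := by
  rw [disjoint_left]
  intro v h1 h2
  rw [mem_cl] at h1 h2
  exact h (hP v l l' h1 h2)

theorem card_eq [NeZero p] (P : Finset (Fin n × ZMod p)) : P.card = ∑ l, (cl P l).card := by
  classical
  rw [Finset.card_eq_sum_card_fiberwise (f := fun z : Fin n × ZMod p => z.2) (t := univ)
    (fun _ _ => by simp)]
  refine Finset.sum_congr rfl fun l _ => ?_
  unfold cl
  rw [card_image_of_injOn]
  rintro ⟨v, a⟩ h1 ⟨w, b⟩ h2 h3
  simp only [coe_filter, Set.mem_ofPred_eq] at h1 h2 h3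
  rw [h1.2, h2.2, h3]

/-- the signs whose class contains an `r`-set of colour `c` -/
noncomputable def Sc [NeZero p] (col : Finset (Fin n) → Fin q) (r : ℕ) (P : Finset (Fin n × ZMod p))
    (c : Fin q) : Finset (ZMod p) :=
  open Classical in univ.filter (fun l => ∃ F ⊆ cl P l, F.card = r ∧ col F = c)

theorem mem_Sc [NeZero p] (col : Finset (Fin n) → Fin q) (r : ℕ) (P : Finset (Fin n × ZMod p))
    (c : Fin q) (l : ZMod p) : l ∈ Sc col r P c ↔ ∃ F ⊆ cl P l, F.card = r ∧ col F = c := by
  classical
  unfold Sc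
  simp

theorem Sc_mono [NeZero p] (col : Finset (Fin n) → Fin q) (r : ℕ) {P Q : Finset (Fin n × ZMod p)}
    (h : P ⊆ Q) (c : Fin q) : Sc col r P c ⊆ Sc col r Q c := by
  intro l hl
  rw [mem_Sc] at hl ⊢
  obtain ⟨F, h1, h2⟩ := hl
  exact ⟨F, h1.trans (cl_mono h l), h2⟩

theorem Sc_shP [NeZero p] (col : Finset (Fin n) → Fin q) (r : ℕ) (P : Finset (Fin n × ZMod p))
    (c : Fin q) : Sc col r (shP P) c = (Sc col r P c).image (· + 1) := by
  ext l
  rw [mem_Sc, mem_image, cl_shP]
  constructor
  · intro h
    exact ⟨l - 1, (mem_Sc _ _ _ _ _).2 h, by ring⟩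
  · rintro ⟨l', h, rfl⟩
    rw [mem_Sc] at h
    simpa using h

/-- average of a set of residues -/
noncomputable def av (S : Finset (ZMod p)) : ZMod p := (∑ s ∈ S, s) * (S.card : ZMod p)⁻¹

theorem av_shift [Fact p.Prime] (S : Finset (ZMod p)) (h0 : S.Nonempty) (h1 : S ≠ univ) :
    av (S.image (· + 1)) = av S + 1 := by
  have hinj : Function.Injective (fun x : ZMod p => x + 1) := add_left_injective 1
  have hc : (S.card : ZMod p) ≠ 0 := by
    intro h
    rw [ZMod.natCast_eq_zero_iff] at h
    have h2 : S.card < Fintype.card (ZMod p) := by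
      rw [← Finset.card_univ]
      exact Finset.card_lt_card (Finset.ssubset_univ_iff.2 h1)
    rw [ZMod.card] at h2
    exact absurd (Nat.le_of_dvd h0.card_pos h) (not_le.2 h2)
  unfold av
  rw [card_image_of_injective _ hinj, sum_image (fun a _ b _ h => hinj h), sum_add_distrib]
  simp only [sum_const, nsmul_eq_mul, mul_one]
  rw [add_mul, mul_inv_cancel₀ hc]

/-- choice of an element -/
noncomputable def pk {α : Type} [Inhabited α] (N : Finset α) : α :=
  open Classical in if h : N.Nonempty then h.choose else default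

theorem pk_mem {α : Type} [Inhabited α] {N : Finset α} (h : N.Nonempty) : pk N ∈ N := by
  unfold pk
  rw [dif_pos h]
  exact h.choose_spec

/-- label of a family of sets of residues -/
noncomputable def lab2 [NeZero q] (S : Fin q → Finset (ZMod p)) : ZMod p :=
  open Classical in av (S (pk (univ.filter (fun c => (S c).Nonempty))))

theorem lab2_shift [Fact p.Prime] [NeZero q] (S S' : Fin q → Finset (ZMod p))
    (h0 : ∃ c, (S c).Nonempty) (h1 : ∀ c, S c ≠ univ) (h : ∀ c, S' c = (S c).image (· + 1)) :
    lab2 S' = lab2 S + 1 := by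
  classical
  have e : (univ.filter (fun c => (S' c).Nonempty)) = (univ.filter (fun c => (S c).Nonempty)) := by
    refine Finset.filter_congr fun c _ => ?_
    rw [h, image_nonempty]
  have hne : (univ.filter (fun c => (S c).Nonempty)).Nonempty := by
    obtain ⟨c, hc⟩ := h0
    exact ⟨c, by simpa using hc⟩
  have hm := pk_mem hne
  rw [mem_filter] at hm
  unfold lab2
  rw [e, h]
  exact av_shift _ hm.2 (h1 _)

/-- label by the sign of a fixed point of the support -/
noncomputable def lab1 (P : Finset (Fin n × ZMod p)) [NeZero n] : ZMod p :=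
  open Classical in pk (α := ZMod p) (P.filter (fun z => z.1 = pk (P.image Prod.fst))|>.image Prod.snd)

theorem lab1_mem [NeZero n] (P : Finset (Fin n × ZMod p)) (h : P.Nonempty) :
    (pk (P.image Prod.fst), lab1 P) ∈ P := by
  classical
  have h1 : (P.image Prod.fst).Nonempty := h.image _
  have h2 := pk_mem h1
  rw [mem_image] at h2
  obtain ⟨⟨v, l⟩, h3, h4⟩ := h2
  have h5 : ((P.filter (fun z => z.1 = pk (P.image Prod.fst))).image Prod.snd).Nonempty :=
    ⟨l, mem_image.2 ⟨(v, l), mem_filter.2 ⟨h3, h4⟩, rfl⟩⟩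
  have h6 := pk_mem h5
  rw [mem_image] at h6
  obtain ⟨⟨v', l'⟩, h7, h8⟩ := h6
  rw [mem_filter] at h7
  obtain ⟨h9, h10⟩ := h7
  simp only at h10 h8
  have : lab1 P = l' := by unfold lab1; exact h8.symm
  rw [this, ← h10]
  exact h9

theorem lab1_shift [NeZero n] (P : Finset (Fin n × ZMod p)) (hP : PF P) (h : P.Nonempty) :
    lab1 (shP P) = lab1 P + 1 := by
  classical
  have e : (shP P).image Prod.fst = P.image Prod.fst := by
    unfold shP
    rw [image_image]
    rfl
  have h1 := lab1_mem P h
  have h2 := lab1_mem (shP P) (h.image _)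
  rw [e, mem_shP] at h2
  have := hP _ _ _ h1 h2
  rw [this]
  ring

/-- **Alon, Frankl, Lovász for prime matching number.** -/
theorem afl_prime (p : ℕ) [Fact p.Prime] (q r n : ℕ) (hq : 1 ≤ q) (hr : 1 ≤ r)
    (hn : (r - 1) * p + q * (p - 1) + 1 ≤ n) (col : Finset (Fin n) → Fin q) :
    ∃ (c : Fin q) (F : ZMod p → Finset (Fin n)), (∀ l, (F l).card = r) ∧ (∀ l, col (F l) = c) ∧
      ∀ l l', l ≠ l' → Disjoint (F l) (F l') := by
  classical
  by_contra hcon
  have hp : 2 ≤ p := (Fact.out : p.Prime).two_le
  have : NeZero q := ⟨by omega⟩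
  have : NeZero n := ⟨by omega⟩
  have hSc : ∀ P : Finset (Fin n × ZMod p), PF P → ∀ c, Sc col r P c ≠ univ := by
    intro P hP c h
    apply hcon
    have h1 : ∀ l : ZMod p, ∃ F ⊆ cl P l, F.card = r ∧ col F = c := fun l => by
      rw [← mem_Sc, h]
      exact mem_univ _
    choose F hF using h1
    exact ⟨c, F, fun l => (hF l).2.1, fun l => (hF l).2.2,
      fun l l' hl => Finset.disjoint_of_subset_left (hF l).1
        (Finset.disjoint_of_subset_right (hF l').1 (cl_disj hP hl))⟩
  set T : Finset (Fin n × ZMod p) → ℕ := fun P => ∑ c, (Sc col r P c).card with hT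
  have hTle : ∀ P, PF P → T P ≤ q * (p - 1) := by
    intro P hP
    calc T P ≤ ∑ _c : Fin q, (p - 1) := by
          refine Finset.sum_le_sum fun c _ => ?_
          have h2 : (Sc col r P c).card < Fintype.card (ZMod p) := by
            rw [← Finset.card_univ]
            exact Finset.card_lt_card (Finset.ssubset_univ_iff.2 (hSc P hP c))
          rw [ZMod.card] at h2
          omega
      _ = q * (p - 1) := by simp
  have hex : ∀ P : Finset (Fin n × ZMod p), (r - 1) * p < P.card → ∃ c, (Sc col r P c).Nonempty := by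
    intro P hP
    by_contra hno
    push Not at hno
    have h1 : ∀ l : ZMod p, (cl P l).card ≤ r - 1 := by
      intro l
      by_contra hl
      obtain ⟨F, hF1, hF2⟩ := Finset.exists_subset_card_eq (show r ≤ (cl P l).card by omega)
      have := (mem_Sc col r P (col F) l).2 ⟨F, hF1, hF2, rfl⟩
      rw [hno] at this
      simp at this
    have h2 : P.card ≤ (r - 1) * p := by
      rw [card_eq]
      calc ∑ l, (cl P l).card ≤ ∑ _l : ZMod p, (r - 1) := Finset.sum_le_sum fun l _ => h1 l
        _ = (r - 1) * p := by simp [ZMod.card, mul_comm]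
    omega
  have hTpos : ∀ P : Finset (Fin n × ZMod p), (r - 1) * p < P.card → 1 ≤ T P := by
    intro P hP
    obtain ⟨c, hc⟩ := hex P hP
    have : (Sc col r P c).card ≤ T P :=
      Finset.single_le_sum (f := fun c => (Sc col r P c).card) (fun _ _ => Nat.zero_le _) (mem_univ c)
    have := hc.card_pos
    omega
  have hTsh : ∀ P : Finset (Fin n × ZMod p), T (shP P) = T P := by
    intro P
    refine Finset.sum_congr rfl fun c _ => ?_
    rw [Sc_shP, card_image_of_injective _ (add_left_injective 1)]
  have hcsh : ∀ P : Finset (Fin n × ZMod p), (shP P).card = P.card := by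
    intro P
    unfold shP
    rw [card_image_of_injective]
    rintro ⟨a, b⟩ ⟨c, d⟩ h
    simp only [Prod.mk.injEq, add_left_inj] at h
    rw [h.1, h.2]
  refine zp_labels p n ((r - 1) * p + q * (p - 1)) (by omega)
    (fun P => if P.card ≤ (r - 1) * p then P.card - 1 else (r - 1) * p + T P - 1)
    (fun P => if P.card ≤ (r - 1) * p then lab1 P else lab2 (Sc col r P)) ?_ ?_ ?_ ?_
  · intro P hP hN
    have h1 := hN.card_pos
    have h2 := hTle P hP
    split_ifs with h
    · omega
    · have h3 := hTpos P (by omega)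
      omega
  · intro P _ _
    simp only [hcsh, hTsh]
  · intro P hP hN
    simp only [hcsh]
    split_ifs with h
    · exact lab1_shift P hP hN
    · exact lab2_shift _ _ (hex P (by omega)) (hSc P hP) (fun c => Sc_shP col r P c)
  · intro P Q hQ hN hPQ hlev
    have h1 := hN.card_pos
    have h2 := Finset.card_le_card hPQ
    by_cases hP' : P.card ≤ (r - 1) * p
    · by_cases hQ' : Q.card ≤ (r - 1) * p
      · rw [if_pos hP', if_pos hQ'] at hlev
        have : P = Q := Finset.eq_of_subset_of_card_le hPQ (by omega)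
        rw [this]
      · rw [if_pos hP', if_neg hQ'] at hlev
        have := hTpos Q (by omega)
        omega
    · have hQ' : ¬ Q.card ≤ (r - 1) * p := by omega
      rw [if_neg hP', if_neg hQ'] at hlev ⊢
      have h3 := hTpos P (by omega)
      have h4 := hTpos Q (by omega)
      have h5 : T P = T Q := by omega
      have h6 : ∀ c ∈ (univ : Finset (Fin q)), (Sc col r P c).card = (Sc col r Q c).card := by
        refine (Finset.sum_eq_sum_iff_of_le (fun c _ => Finset.card_le_card
          (Sc_mono col r hPQ c))).1 h5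
      have h7 : Sc col r P = Sc col r Q := by
        funext c
        exact Finset.eq_of_subset_of_card_le (Sc_mono col r hPQ c) (h6 c (mem_univ _)).ge
      rw [h7]

end Pool.Agent.Q257.Afl
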