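import Mathlib
import Pool.Agent.Q257.Afl.Prime

/-!
The asymmetric form of the theorem of Alon, Frankl and Lovász (matching numbers `t j ≤ p`, `p` prime).
-/

set_option autoImplicit false

namespace Pool.Agent.Q257.Afl

open Finset

theorem afl_asym (p : ℕ) [Fact p.Prime] (q r k : ℕ) (hq : 1 ≤ q) (hr : 1 ≤ r) (t : Fin q → ℕ)
    (ht1 : ∀ j, 1 ≤ t j) (htp : ∀ j, t j ≤ p) (hk : (r - 1) * p + ∑ j, (t j - 1) + 1 ≤ k)
    (col : Finset (Fin k) → Fin q) :
    ∃ (j : Fin q) (M : Finset (Finset (Fin k))), M.card = t j ∧ (∀ F ∈ M, F.card = r ∧ col F = j) ∧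
      ∀ F ∈ M, ∀ F' ∈ M, F ≠ F' → Disjoint F F' := by
  classical
  let W := Σ j : Fin q, Fin (p - t j)
  let U := Fin k ⊕ W
  have hcardU : Fintype.card U = k + ∑ j, (p - t j) := by
    simp [U, W, Fintype.card_sum, Fintype.card_sigma]
  let e : Fin (Fintype.card U) ≃ U := (Fintype.equivFin U).symm
  -- colouring
  let has : Finset (Fin (Fintype.card U)) → Fin q → Prop := fun F j =>
    ∃ i : Fin (p - t j), e.symm (Sum.inr ⟨j, i⟩) ∈ F
  let bk : Finset (Fin (Fintype.card U)) → Finset (Fin k) := fun F =>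
    univ.filter (fun v => e.symm (Sum.inl v) ∈ F)
  let col' : Finset (Fin (Fintype.card U)) → Fin q := fun F =>
    if h : ∃ j, has F j then h.choose else col (bk F)
  have hsum : ∑ j, (p - t j) + ∑ j, (t j - 1) = q * (p - 1) := by
    rw [← Finset.sum_add_distrib]
    rw [Finset.sum_congr rfl (g := fun _ => p - 1) (fun j _ => by
      have := ht1 j
      have := htp j
      omega)]
    simp
  obtain ⟨c, F, hF1, hF2, hF3⟩ := afl_prime p q r (Fintype.card U) hq hr (by
    rw [hcardU]
    omega) col'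
  set A : Finset (ZMod p) := univ.filter (fun l => has (F l) c) with hA
  have hAc : A.card ≤ p - t c := by
    have h1 : ∀ l ∈ A, has (F l) c := fun l hl => (mem_filter.1 hl).2
    rcases A.eq_empty_or_nonempty with h0 | ⟨l0, hl0⟩
    · rw [h0]
      simp
    have : Nonempty (Fin (p - t c)) := ⟨(h1 l0 hl0).choose⟩
    choose! g hg using h1
    have : A.card ≤ (univ : Finset (Fin (p - t c))).card := by
      refine Finset.card_le_card_of_injOn g (fun _ _ => by simp) ?_
      intro l hl l' hl' hll
      by_contra hne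
      have h2 := hg l hl
      have h3 := hg l' hl'
      rw [← hll] at h3
      exact (disjoint_left.1 (hF3 l l' hne)) h2 h3
    simpa using this
  set B : Finset (ZMod p) := univ \ A with hB
  have hBc : t c ≤ B.card := by
    rw [hB, Finset.card_sdiff_of_subset (subset_univ _), Finset.card_univ, ZMod.card]
    have := htp c
    omega
  have hBn : ∀ l ∈ B, ¬ ∃ j, has (F l) j := by
    intro l hl hex
    have h2 : col' (F l) = hex.choose := by
      simp only [col', dif_pos hex]
    rw [hF2] at h2
    have h3 := hex.choose_spec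
    rw [← h2] at h3
    rw [hB, mem_sdiff] at hl
    exact hl.2 (mem_filter.2 ⟨mem_univ _, h3⟩)
  have hBcol : ∀ l ∈ B, col (bk (F l)) = c := by
    intro l hl
    have h2 : col' (F l) = col (bk (F l)) := by
      simp only [col', dif_neg (hBn l hl)]
    rw [← h2]
    exact hF2 l
  have hBF : ∀ l ∈ B, F l = (bk (F l)).image (fun v => e.symm (Sum.inl v)) := by
    intro l hl
    ext x
    rw [mem_image]
    constructor
    · intro hx
      rcases h : e x with v | ⟨j, i⟩
      · refine ⟨v, mem_filter.2 ⟨mem_univ _, ?_⟩, ?_⟩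
        · rw [← h, Equiv.symm_apply_apply]; exact hx
        · rw [← h, Equiv.symm_apply_apply]
      · exfalso
        apply hBn l hl
        refine ⟨j, i, ?_⟩
        rw [← h, Equiv.symm_apply_apply]
        exact hx
    · rintro ⟨v, hv, rfl⟩
      exact (mem_filter.1 hv).2
  have hinj : Function.Injective (fun v : Fin k => e.symm (Sum.inl v)) :=
    fun a b h => Sum.inl_injective (e.symm.injective h)
  have hBcard : ∀ l ∈ B, (bk (F l)).card = r := by
    intro l hl
    rw [← hF1 l, hBF l hl, card_image_of_injective _ hinj, ← hBF l hl]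
  have hBdis : ∀ l ∈ B, ∀ l' ∈ B, l ≠ l' → Disjoint (bk (F l)) (bk (F l')) := by
    intro l _ l' _ hne
    rw [disjoint_left]
    intro v h1 h2
    exact (disjoint_left.1 (hF3 l l' hne)) (mem_filter.1 h1).2 (mem_filter.1 h2).2
  obtain ⟨B', hB'1, hB'2⟩ := Finset.exists_subset_card_eq hBc
  refine ⟨c, B'.image (fun l => bk (F l)), ?_, ?_, ?_⟩
  · rw [card_image_of_injOn, hB'2]
    intro l hl l' hl' h
    by_contra hne
    have h1 := hBdis l (hB'1 hl) l' (hB'1 hl') hne
    simp only at h
    rw [h, disjoint_self_iff_empty] at h1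
    have := hBcard l' (hB'1 hl')
    rw [h1] at this
    simp at this
    omega
  · intro X hX
    obtain ⟨l, hl, rfl⟩ := mem_image.1 hX
    exact ⟨hBcard l (hB'1 hl), hBcol l (hB'1 hl)⟩
  · intro X hX Y hY hne
    obtain ⟨l, hl, rfl⟩ := mem_image.1 hX
    obtain ⟨l', hl', rfl⟩ := mem_image.1 hY
    exact hBdis l (hB'1 hl) l' (hB'1 hl') (fun h => hne (by rw [h]))

end Pool.Agent.Q257.Afl
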