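import Mathlib

/-!
Unions of holes (rectangles without edges of a colour) at nested scales.
-/

set_option autoImplicit false

namespace Pool.Agent.Q257.Afl

open Finset

variable {V : Type} [Fintype V] [DecidableEq V] {r : ℕ}

/-- rectangles without an edge of `E` -/
def Hole (E : Finset (Finset V)) (R : Fin r → Finset V) : Prop :=
  ∀ x : Fin r → V, (∀ l, x l ∈ R l) → univ.image x ∉ E

omit [Fintype V] in
theorem Hole.mono {E : Finset (Finset V)} {R R' : Fin r → Finset V} (h : Hole E R)
    (hR : ∀ l, R' l ⊆ R l) : Hole E R' := fun x hx => h x fun l => hR l (hx l)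

/-- union of rectangles -/
def un (S : Finset (Fin r → Finset V)) : Finset (Fin r → V) := S.biUnion Fintype.piFinset

omit [Fintype V] in
theorem mem_un (S : Finset (Fin r → Finset V)) (x : Fin r → V) :
    x ∈ un S ↔ ∃ R ∈ S, ∀ l, x l ∈ R l := by
  unfold un
  simp only [mem_biUnion, Fintype.mem_piFinset]

omit [Fintype V] in
theorem un_mono {S S' : Finset (Fin r → Finset V)} (h : S ⊆ S') : un S ⊆ un S' :=
  Finset.biUnion_subset_biUnion_of_subset_left _ h

theorem un_card_le (S : Finset (Fin r → Finset V)) :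
    ((un S).card : ℝ) ≤ (Fintype.card V : ℝ) ^ r := by
  have := Finset.card_le_univ (un S)
  rw [Fintype.card_fun, Fintype.card_fin] at this
  exact_mod_cast this

theorem step (E : Finset (Finset V)) (β : ℝ) (hβ : 0 < β) (hV : 0 < Fintype.card V)
    (S : Finset (Fin r → Finset V)) (hS : ∀ R ∈ S, Hole E R) :
    ∃ S', S ⊆ S' ∧ (∀ R ∈ S', Hole E R) ∧ (S'.card : ℝ) ≤ S.card + 1 / β ∧
      ∀ R : Fin r → Finset V, Hole E R →
        ((Fintype.piFinset R \ un S').card : ℝ) ≤ β * (Fintype.card V : ℝ) ^ r := by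
  classical
  have hn : (0 : ℝ) < (Fintype.card V : ℝ) ^ r := by
    have : (0 : ℝ) < Fintype.card V := by exact_mod_cast hV
    positivity
  obtain ⟨S', hS', hmax⟩ := Finset.exists_max_image
    (univ.filter (fun T : Finset (Fin r → Finset V) => S ⊆ T ∧ ∀ R ∈ T, Hole E R))
    (fun T => ((un T).card : ℝ) - β * (Fintype.card V : ℝ) ^ r * T.card)
    ⟨S, mem_filter.2 ⟨mem_univ _, subset_rfl, hS⟩⟩
  obtain ⟨-, hSS, hH⟩ := mem_filter.1 hS'
  refine ⟨S', hSS, hH, ?_, ?_⟩
  · have h1 := hmax S (mem_filter.2 ⟨mem_univ _, subset_rfl, hS⟩)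
    have h2 := un_card_le S'
    have h3 : (0 : ℝ) ≤ (un S).card := Nat.cast_nonneg _
    have h4 : β * (Fintype.card V : ℝ) ^ r * ((S'.card : ℝ) - S.card) ≤
        (Fintype.card V : ℝ) ^ r := by nlinarith
    have h5 : ((S'.card : ℝ) - S.card) ≤ 1 / β := by
      rw [le_div_iff₀ hβ]
      have : (((S'.card : ℝ) - S.card) * β) * (Fintype.card V : ℝ) ^ r ≤
          1 * (Fintype.card V : ℝ) ^ r := by linarith
      exact le_of_mul_le_mul_right this hn
    linarith
  · intro R hR
    by_cases hin : R ∈ S'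
    · have : Fintype.piFinset R \ un S' = ∅ := by
        rw [sdiff_eq_empty_iff_subset]
        intro x hx
        rw [mem_un]
        exact ⟨R, hin, by simpa [Fintype.mem_piFinset] using hx⟩
      rw [this]
      simp only [card_empty, Nat.cast_zero]
      positivity
    · have h1 := hmax (insert R S') (mem_filter.2 ⟨mem_univ _, hSS.trans (subset_insert _ _), by
        intro T hT
        rcases mem_insert.1 hT with rfl | hT
        · exact hR
        · exact hH T hT⟩)
      rw [card_insert_of_notMem hin] at h1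
      have h2 : un (insert R S') = un S' ∪ (Fintype.piFinset R \ un S') := by
        unfold un
        rw [biUnion_insert, union_sdiff_self_eq_union, union_comm]
      rw [h2, card_union_of_disjoint disjoint_sdiff] at h1
      push_cast at h1
      linarith

/-- the data at a given level -/
structure Lv (E : Finset (Finset V)) (r : ℕ) where
  /-- the holes -/
  S : Finset (Fin r → Finset V)
  hole : ∀ R ∈ S, Hole E R

/-- sequence of families of holes -/
noncomputable def seq (E : Finset (Finset V)) (β : ℕ → ℝ) (hβ : ∀ i, 0 < β i)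
    (hV : 0 < Fintype.card V) : ℕ → Lv E r
  | 0 => ⟨∅, by simp⟩
  | i + 1 => ⟨(step E (β (i + 1)) (hβ _) hV (seq E β hβ hV i).S (seq E β hβ hV i).hole).choose,
      (step E (β (i + 1)) (hβ _) hV (seq E β hβ hV i).S (seq E β hβ hV i).hole).choose_spec.2.1⟩

theorem seq_spec (E : Finset (Finset V)) (β : ℕ → ℝ) (hβ : ∀ i, 0 < β i)
    (hV : 0 < Fintype.card V) (i : ℕ) :
    (seq (r := r) E β hβ hV i).S ⊆ (seq E β hβ hV (i + 1)).S ∧
      (((seq (r := r) E β hβ hV (i + 1)).S.card : ℝ) ≤
        (seq (r := r) E β hβ hV i).S.card + 1 / β (i + 1)) ∧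
      ∀ R : Fin r → Finset V, Hole E R →
        ((Fintype.piFinset R \ un (seq E β hβ hV (i + 1)).S).card : ℝ) ≤
          β (i + 1) * (Fintype.card V : ℝ) ^ r := by
  have h := (step E (β (i + 1)) (hβ _) hV (seq (r := r) E β hβ hV i).S
    (seq E β hβ hV i).hole).choose_spec
  exact ⟨h.1, h.2.2.1, h.2.2.2⟩

/-- blocks: monochromatic sets of equal size -/
theorem equi {C : Type} [Fintype C] [DecidableEq C] (κ : V → C) (m : ℕ) (hm : 1 ≤ m) :
    ∃ Pt : Finset (Finset V), (∀ A ∈ Pt, A.card = m ∧ ∃ c, ∀ v ∈ A, κ v = c) ∧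
      (∀ A ∈ Pt, ∀ B ∈ Pt, A ≠ B → Disjoint A B) ∧
      Fintype.card V ≤ Pt.card * m + Fintype.card C * m := by
  classical
  let Ok : Finset (Finset V) → Prop := fun Pt => (∀ A ∈ Pt, A.card = m ∧ ∃ c, ∀ v ∈ A, κ v = c) ∧
      (∀ A ∈ Pt, ∀ B ∈ Pt, A ≠ B → Disjoint A B)
  obtain ⟨Pt, hPt, hmax⟩ := Finset.exists_max_image (univ.filter Ok) (fun Pt => Pt.card)
    ⟨∅, by simp [Ok]⟩
  obtain ⟨-, h1, h2⟩ := mem_filter.1 hPt
  refine ⟨Pt, h1, h2, ?_⟩
  set Lf : Finset V := univ \ Pt.biUnion id with hLf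
  have h3 : ∀ c, (Lf.filter (fun v => κ v = c)).card ≤ m := by
    intro c
    by_contra hlt
    push Not at hlt
    obtain ⟨A, hA1, hA2⟩ := Finset.exists_subset_card_eq hlt.le
    have hAd : ∀ B ∈ Pt, Disjoint A B := by
      intro B hB
      rw [disjoint_left]
      intro v hv hvB
      have := (mem_filter.1 (hA1 hv)).1
      rw [hLf, mem_sdiff] at this
      exact this.2 (mem_biUnion.2 ⟨B, hB, hvB⟩)
    have hAn : A ∉ Pt := by
      intro h
      have := hAd A h
      rw [disjoint_self_iff_empty] at this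
      rw [this, card_empty] at hA2
      omega
    have hOk : Ok (insert A Pt) := by
      constructor
      · intro B hB
        rcases mem_insert.1 hB with rfl | hB
        · exact ⟨hA2, c, fun v hv => (mem_filter.1 (hA1 hv)).2⟩
        · exact h1 B hB
      · intro B hB B' hB' hne
        rcases mem_insert.1 hB with e1 | e1 <;> rcases mem_insert.1 hB' with e2 | e2
        · exact absurd (e1.trans e2.symm) hne
        · rw [e1]; exact hAd _ e2
        · rw [e2]; exact (hAd _ e1).symm
        · exact h2 B e1 B' e2 hne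
    have := hmax _ (mem_filter.2 ⟨mem_univ _, hOk⟩)
    rw [card_insert_of_notMem hAn] at this
    omega
  have h4 : Lf.card ≤ Fintype.card C * m := by
    rw [Finset.card_eq_sum_card_fiberwise (f := κ) (t := univ) (fun _ _ => by simp)]
    calc ∑ c, (Lf.filter (fun v => κ v = c)).card ≤ ∑ _c : C, m := Finset.sum_le_sum fun c _ => h3 c
      _ = Fintype.card C * m := by simp
  have h5 : (Pt.biUnion id).card ≤ Pt.card * m := by
    refine Finset.card_biUnion_le_card_mul _ _ _ fun A hA => ?_
    exact (h1 A hA).1.le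
  have h6 : Lf.card + (Pt.biUnion id).card = Fintype.card V := by
    rw [hLf, Finset.card_sdiff_add_card_eq_card (subset_univ _), Finset.card_univ]
  omega

end Pool.Agent.Q257.Afl
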