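import Mathlib
import Pool.Agent.Q257.Afl.Hole

/-!
Partition of the vertices of a coloured connector into blocks such that almost every `r`-tuple of
blocks is robust for some colour.
-/

set_option autoImplicit false

namespace Pool.Agent.Q257.Afl

open Finset

/-- `s`-connectors -/
def IsConn {V : Type} [DecidableEq V] (s r : ℕ) (H : Finset (Finset V)) : Prop :=
  ∀ A : Fin r → Finset V, (∀ i j, i ≠ j → Disjoint (A i) (A j)) → (∀ i, s ≤ (A i).card) →
    ∃ x : Fin r → V, (∀ i, x i ∈ A i) ∧ univ.image x ∈ H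

/-- bounds for the numbers of holes -/
noncomputable def LL (q r : ℕ) (θ ζ : ℝ) : ℕ → ℕ
  | 0 => 0
  | i + 1 => LL q r θ ζ i + ⌈1 / (θ * (ζ / (2 * 2 ^ (q * r * LL q r θ ζ i))) ^ r)⌉₊

/-- scales -/
noncomputable def bb (q r : ℕ) (θ ζ : ℝ) : ℕ → ℝ
  | 0 => 1
  | i + 1 => θ * (ζ / (2 * 2 ^ (q * r * LL q r θ ζ i))) ^ r

theorem bb_pos (q r : ℕ) {θ ζ : ℝ} (hθ : 0 < θ) (hζ : 0 < ζ) (i : ℕ) : 0 < bb q r θ ζ i := by
  cases i with
  | zero => exact one_pos
  | succ i =>
    unfold bb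
    positivity

theorem LL_mono (q r : ℕ) (θ ζ : ℝ) : Monotone (LL q r θ ζ) :=
  monotone_nat_of_le_succ fun i => by
    rw [LL]
    omega

theorem blocks (q r : ℕ) (hr : 1 ≤ r) (ζ γ η : ℝ) (hζ : 0 < ζ) (hζ2 : ζ ≤ 1 / 2) (hγ : 0 < γ)
    (hη : 0 < η) : ∃ N0 : ℕ, 1 ≤ N0 ∧ ∀ (V : Type) [Fintype V] [DecidableEq V] (s : ℕ)
    (H : Finset (Finset V)) (col : Finset V → Fin q), IsConn s r H →
    2 * N0 / ζ ≤ Fintype.card V → (s : ℝ) ≤ ζ * Fintype.card V / (2 * N0) →
    ∃ (Pt : Finset (Finset V)) (m : ℕ) (B : Finset (Fin r → Pt)), 1 ≤ m ∧ (∀ A ∈ Pt, A.card = m) ∧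
      (∀ A ∈ Pt, ∀ A' ∈ Pt, A ≠ A' → Disjoint A A') ∧
      (1 - ζ) * Fintype.card V ≤ (Pt.card : ℝ) * m ∧ (Pt.card : ℝ) * m ≤ Fintype.card V ∧
      ζ * Fintype.card V / (2 * N0) ≤ m ∧ (m : ℝ) ≤ ζ * Fintype.card V ∧
      (B.card : ℝ) ≤ η * (Pt.card : ℝ) ^ r ∧
      ∀ f : Fin r → Pt, Function.Injective f → f ∉ B → ∃ j, ∀ B' : Fin r → Finset V,
        (∀ l, B' l ⊆ (f l).1) → (∀ l, γ * m ≤ (B' l).card) →
        ∃ x : Fin r → V, (∀ l, x l ∈ B' l) ∧ univ.image x ∈ H ∧ col (univ.image x) = j := by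
  classical
  set θ : ℝ := γ ^ r / 3 with hθd
  have hθ : 0 < θ := by positivity
  set M : ℕ := ⌈q * 2 ^ r / (θ * η)⌉₊ + 1 with hM
  have hMpos : (0 : ℝ) < M := by
    rw [hM]
    positivity
  have hMη : (q : ℝ) * 2 ^ r / (M * θ) ≤ η := by
    have h1 : (q : ℝ) * 2 ^ r / (θ * η) ≤ M := by
      rw [hM]
      push_cast
      have := Nat.le_ceil ((q : ℝ) * 2 ^ r / (θ * η))
      linarith
    rw [div_le_iff₀ (by positivity)] at h1 ⊢
    linarith
  set N0 : ℕ := 2 ^ (q * r * LL q r θ ζ M) with hN0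
  have hN0pos : 1 ≤ N0 := Nat.one_le_two_pow
  refine ⟨N0, hN0pos, ?_⟩
  intro V _ _ s H col hconn hn hs
  set n : ℝ := (Fintype.card V : ℝ) with hnd
  have hN0r : (1 : ℝ) ≤ N0 := by exact_mod_cast hN0pos
  have hnpos : 0 < n := lt_of_lt_of_le (by positivity) hn
  have hV : 0 < Fintype.card V := by
    have : (0 : ℝ) < Fintype.card V := hnpos
    exact_mod_cast this
  set E : Fin q → Finset (Finset V) := fun j => H.filter (fun e => col e = j) with hE
  set Sq : Fin q → ℕ → Finset (Fin r → Finset V) := fun j i =>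
    (seq (r := r) (E j) (bb q r θ ζ) (bb_pos q r hθ hζ) hV i).S with hSq
  have hSh : ∀ j i, ∀ R ∈ Sq j i, Hole (E j) R := fun j i =>
    (seq (r := r) (E j) (bb q r θ ζ) (bb_pos q r hθ hζ) hV i).hole
  have hSs : ∀ j i, Sq j i ⊆ Sq j (i + 1) := fun j i => (seq_spec _ _ _ hV i).1
  have hSc : ∀ j i, (Sq j i).card ≤ LL q r θ ζ i := by
    intro j i
    induction i with
    | zero => simp [hSq, seq, LL]
    | succ i ih =>
      have h1 := (seq_spec (r := r) (E j) (bb q r θ ζ) (bb_pos q r hθ hζ) hV i).2.1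
      have h2 : (1 : ℝ) / bb q r θ ζ (i + 1) ≤
          (⌈1 / (θ * (ζ / (2 * 2 ^ (q * r * LL q r θ ζ i))) ^ r)⌉₊ : ℝ) := Nat.le_ceil _
      have h3 : ((Sq j (i + 1)).card : ℝ) ≤ (LL q r θ ζ (i + 1) : ℕ) := by
        rw [LL]
        push_cast
        have h4 : ((Sq j i).card : ℝ) ≤ LL q r θ ζ i := by exact_mod_cast ih
        exact h1.trans (add_le_add h4 h2)
      exact_mod_cast h3
  have hSr : ∀ j i, ∀ R : Fin r → Finset V, Hole (E j) R →
      ((Fintype.piFinset R \ un (Sq j (i + 1))).card : ℝ) ≤ bb q r θ ζ (i + 1) * n ^ r := fun j i =>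
    (seq_spec _ _ _ hV i).2.2
  set U : Fin q → ℕ → Finset (Fin r → V) := fun j i => un (Sq j i) with hU
  have hUs : ∀ j i, U j i ⊆ U j (i + 1) := fun j i => un_mono (hSs j i)
  -- pigeonhole
  obtain ⟨i, hiM, hi⟩ : ∃ i ∈ range M, ∑ j, (((U j (i + 1)).card : ℝ) - (U j i).card) ≤
      q * n ^ r / M := by
    apply Finset.exists_le_of_sum_le (by
      rw [nonempty_range_iff]
      omega)
    rw [Finset.sum_comm]
    calc ∑ j, ∑ i ∈ range M, (((U j (i + 1)).card : ℝ) - (U j i).card)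
        = ∑ j : Fin q, (((U j M).card : ℝ) - (U j 0).card) := by
          refine Finset.sum_congr rfl fun j _ => ?_
          exact Finset.sum_range_sub (fun i => ((U j i).card : ℝ)) M
      _ ≤ ∑ _j : Fin q, n ^ r := by
          refine Finset.sum_le_sum fun j _ => ?_
          have h1 := un_card_le (Sq j M)
          have h2 : (0 : ℝ) ≤ (U j 0).card := Nat.cast_nonneg _
          simp only [hU] at h2 ⊢
          linarith
      _ = ∑ _i ∈ range M, q * n ^ r / M := by
          simp only [sum_const, card_univ, Fintype.card_fin, nsmul_eq_mul, card_range]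
          field_simp
  rw [mem_range] at hiM
  -- classes
  let J := (Σ j : Fin q, {R // R ∈ Sq j i}) × Fin r
  let κ : V → (J → Bool) := fun v z => decide (v ∈ z.1.2.1 z.2)
  have hJ : Fintype.card J ≤ q * r * LL q r θ ζ i := by
    simp only [J, Fintype.card_prod, Fintype.card_sigma, Fintype.card_coe, Fintype.card_fin]
    have h1 : ∑ j, (Sq j i).card ≤ q * LL q r θ ζ i := by
      calc ∑ j, (Sq j i).card ≤ ∑ _j : Fin q, LL q r θ ζ i := Finset.sum_le_sum fun j _ => hSc j i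
        _ = q * LL q r θ ζ i := by simp
    calc (∑ j, (Sq j i).card) * r ≤ (q * LL q r θ ζ i) * r := Nat.mul_le_mul_right _ h1
      _ = q * r * LL q r θ ζ i := by ring
  set Ni : ℕ := 2 ^ (q * r * LL q r θ ζ i) with hNi
  have hNiN0 : Ni ≤ N0 := by
    rw [hNi, hN0]
    refine Nat.pow_le_pow_right (by norm_num) ?_
    exact Nat.mul_le_mul_left _ (LL_mono q r θ ζ hiM.le)
  have hNipos : (1 : ℝ) ≤ Ni := by
    have : 1 ≤ Ni := Nat.one_le_two_pow
    exact_mod_cast this
  have hNiN0r : (Ni : ℝ) ≤ N0 := by exact_mod_cast hNiN0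
  set m : ℕ := ⌊ζ * n / Ni⌋₊ with hm
  have hζn : 2 ≤ ζ * n / Ni := by
    rw [le_div_iff₀ (by positivity)]
    rw [div_le_iff₀ hζ] at hn
    nlinarith
  have hm1 : ζ * n / (2 * Ni) ≤ m := by
    have h1 := Nat.lt_floor_add_one (ζ * n / Ni)
    rw [← hm] at h1
    have h2 : ζ * n / (2 * Ni) = (ζ * n / Ni) / 2 := by
      field_simp
    rw [h2]
    linarith
  have hm2 : (m : ℝ) ≤ ζ * n / Ni := Nat.floor_le (by positivity)
  have hm3 : 1 ≤ m := by
    have h1 : (1 : ℝ) ≤ m := by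
      refine le_trans ?_ hm1
      have h2 : ζ * n / (2 * Ni) = (ζ * n / Ni) / 2 := by
        field_simp
      rw [h2]
      linarith
    exact_mod_cast h1
  have hmr : (1 : ℝ) ≤ m := by exact_mod_cast hm3
  have hm4 : ζ * n / (2 * N0) ≤ m := by
    refine le_trans ?_ hm1
    gcongr
  obtain ⟨Pt, hPt1, hPt2, hPt3⟩ := equi κ m hm3
  have hKm1 : (1 - ζ) * n ≤ (Pt.card : ℝ) * m := by
    have h1 : (n : ℝ) ≤ Pt.card * m + (Fintype.card (J → Bool) : ℕ) * m := by
      rw [hnd]
      exact_mod_cast hPt3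
    have h2 : ((Fintype.card (J → Bool) : ℕ) : ℝ) ≤ Ni := by
      rw [Fintype.card_fun, Fintype.card_bool, hNi]
      exact_mod_cast Nat.pow_le_pow_right (by norm_num) hJ
    have h3 : ((Fintype.card (J → Bool) : ℕ) : ℝ) * m ≤ ζ * n := by
      calc ((Fintype.card (J → Bool) : ℕ) : ℝ) * m ≤ Ni * (ζ * n / Ni) := by
            gcongr
        _ = ζ * n := by field_simp
    linarith
  have hKm2 : (Pt.card : ℝ) * m ≤ n := by
    have h1 : Pt.card * m = (Pt.biUnion (fun A => A)).card := by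
      rw [Finset.card_biUnion (fun A hA B hB hne => hPt2 A hA B hB hne)]
      rw [Finset.sum_congr rfl (fun A hA => (hPt1 A hA).1)]
      simp
    have h2 : Pt.card * m ≤ Fintype.card V := h1 ▸ Finset.card_le_univ _
    rw [hnd]
    exact_mod_cast h2
  have hKm3 : n ≤ 2 * (Pt.card * m) := by
    nlinarith
  set D : Fin q → Finset (Fin r → V) := fun j => U j (i + 1) \ U j i with hD
  have hDc : ∀ j, ((D j).card : ℝ) = ((U j (i + 1)).card : ℝ) - (U j i).card := by
    intro j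
    have := Finset.card_sdiff_add_card_eq_card (hUs j i)
    have h2 : ((D j).card : ℝ) + (U j i).card = (U j (i + 1)).card := by exact_mod_cast this
    linarith
  let rect : (Fin r → Pt) → Finset (Fin r → V) := fun f => Fintype.piFinset (fun l => (f l).1)
  have hrd : ∀ f f' : Fin r → Pt, f ≠ f' → Disjoint (rect f) (rect f') := by
    intro f f' hne
    rw [disjoint_left]
    intro x hx hx'
    simp only [rect, Fintype.mem_piFinset] at hx hx'
    apply hne
    funext l
    by_contra hl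
    have h1 : (f l).1 ≠ (f' l).1 := fun h => hl (Subtype.ext h)
    exact disjoint_left.1 (hPt2 _ (f l).2 _ (f' l).2 h1) (hx l) (hx' l)
  set B : Finset (Fin r → Pt) := univ.filter (fun f => ∃ j, θ * m ^ r < ((rect f ∩ D j).card : ℝ))
    with hB
  have hBc : (B.card : ℝ) ≤ η * (Pt.card : ℝ) ^ r := by
    have h1 : (B.card : ℝ) * (θ * m ^ r) ≤ ∑ j, ((D j).card : ℝ) := by
      calc (B.card : ℝ) * (θ * m ^ r) = ∑ _f ∈ B, θ * m ^ r := by
            rw [sum_const, nsmul_eq_mul]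
        _ ≤ ∑ f ∈ B, ∑ j, ((rect f ∩ D j).card : ℝ) := by
            refine Finset.sum_le_sum fun f hf => ?_
            obtain ⟨j, hj⟩ := (mem_filter.1 hf).2
            exact hj.le.trans (Finset.single_le_sum (f := fun j => ((rect f ∩ D j).card : ℝ))
              (fun _ _ => Nat.cast_nonneg _) (mem_univ j))
        _ = ∑ j, ∑ f ∈ B, ((rect f ∩ D j).card : ℝ) := Finset.sum_comm
        _ ≤ ∑ j, ((D j).card : ℝ) := by
            refine Finset.sum_le_sum fun j _ => ?_
            have h2 : ∑ f ∈ B, (rect f ∩ D j).card = (B.biUnion (fun f => rect f ∩ D j)).card := by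
              rw [Finset.card_biUnion]
              intro f _ f' _ hne
              exact Finset.disjoint_of_subset_left inter_subset_left
                (Finset.disjoint_of_subset_right inter_subset_left (hrd f f' hne))
            have h3 : (B.biUnion (fun f => rect f ∩ D j)).card ≤ (D j).card := by
              refine Finset.card_le_card ?_
              intro x hx
              obtain ⟨f, _, hf⟩ := mem_biUnion.1 hx
              exact (mem_inter.1 hf).2
            exact_mod_cast h2.le.trans h3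
    have h2 : ∑ j, ((D j).card : ℝ) ≤ q * n ^ r / M := by
      simp only [hDc]
      exact hi
    have h3 : q * n ^ r / M ≤ q * (2 * (Pt.card * m)) ^ r / M := by
      gcongr
    have h4 : (B.card : ℝ) * (θ * m ^ r) ≤ q * (2 * (Pt.card * m)) ^ r / M :=
      h1.trans (h2.trans h3)
    have h5 : q * (2 * ((Pt.card : ℝ) * m)) ^ r / M =
        ((q : ℝ) * 2 ^ r / (M * θ)) * (Pt.card : ℝ) ^ r * (θ * m ^ r) := by
      rw [mul_pow, mul_pow]
      field_simp
    rw [h5] at h4
    have h6 : (0 : ℝ) < θ * m ^ r := by positivity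
    have h7 := le_of_mul_le_mul_right h4 h6
    refine h7.trans ?_
    exact mul_le_mul_of_nonneg_right hMη (by positivity)
  refine ⟨Pt, m, B, hm3, fun A hA => (hPt1 A hA).1, hPt2, hKm1, hKm2, hm4, ?_, hBc, ?_⟩
  · refine hm2.trans ?_
    exact div_le_self (by positivity) hNipos
  intro f hf hfB
  -- the colour
  have hin : ∀ j, (∃ x ∈ rect f, x ∈ U j i) → Hole (E j) (fun l => (f l).1) := by
    rintro j ⟨x, hx, hxU⟩
    simp only [rect, Fintype.mem_piFinset] at hx
    rw [hU, mem_un] at hxU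
    obtain ⟨R, hR, hxR⟩ := hxU
    refine (hSh j i R hR).mono fun l => ?_
    obtain ⟨c, hc⟩ := (hPt1 _ (f l).2).2
    intro v hv
    have h1 := hc v hv
    have h2 := hc (x l) (hx l)
    have h3 := congrFun (h1.trans h2.symm) (⟨⟨j, ⟨R, hR⟩⟩, l⟩ : J)
    simp only [κ] at h3
    have h4 : (v ∈ R l) ↔ (x l ∈ R l) := by simpa using h3
    exact h4.2 (hxR l)
  have hex : ∃ j, ∀ x ∈ rect f, x ∉ U j i := by
    by_contra hcon
    push Not at hcon
    obtain ⟨x, hx, hxH⟩ := hconn (fun l => (f l).1) (by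
      intro a b hab
      refine hPt2 _ (f a).2 _ (f b).2 fun h => hab (hf (Subtype.ext h))) (by
      intro l
      rw [(hPt1 _ (f l).2).1]
      have h1 : (s : ℝ) ≤ m := hs.trans hm4
      exact_mod_cast h1)
    exact hin (col (univ.image x)) (hcon _) x hx (mem_filter.2 ⟨hxH, rfl⟩)
  obtain ⟨j, hj⟩ := hex
  refine ⟨j, ?_⟩
  intro B' hB'1 hB'2
  by_contra hno
  have hhole : Hole (E j) B' := by
    intro x hx hxE
    obtain ⟨h1, h2⟩ := mem_filter.1 hxE
    exact hno ⟨x, hx, h1, h2⟩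
  have h1 := hSr j i B' hhole
  have hsub : Fintype.piFinset B' ⊆ rect f := by
    intro x hx
    simp only [rect, Fintype.mem_piFinset] at hx ⊢
    exact fun l => hB'1 l (hx l)
  have h2 : ((Fintype.piFinset B' ∩ U j (i + 1)).card : ℝ) ≤ θ * m ^ r := by
    have h3 : Fintype.piFinset B' ∩ U j (i + 1) ⊆ rect f ∩ D j := by
      intro x hx
      rw [mem_inter] at hx ⊢
      refine ⟨hsub hx.1, ?_⟩
      rw [hD, mem_sdiff]
      exact ⟨hx.2, hj x (hsub hx.1)⟩
    have h4 : ((Fintype.piFinset B' ∩ U j (i + 1)).card : ℝ) ≤ ((rect f ∩ D j).card : ℝ) := by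
      exact_mod_cast Finset.card_le_card h3
    refine h4.trans ?_
    by_contra hlt
    push Not at hlt
    exact hfB (mem_filter.2 ⟨mem_univ _, j, hlt⟩)
  have h3 : ((Fintype.piFinset B').card : ℝ) ≤ bb q r θ ζ (i + 1) * n ^ r + θ * m ^ r := by
    have h4 := Finset.card_sdiff_add_card_inter (Fintype.piFinset B') (U j (i + 1))
    have h5 : ((Fintype.piFinset B').card : ℝ) = ((Fintype.piFinset B' \ U j (i + 1)).card : ℝ) +
        ((Fintype.piFinset B' ∩ U j (i + 1)).card : ℝ) := by exact_mod_cast h4.symm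
    rw [h5]
    exact add_le_add h1 h2
  have h4 : γ ^ r * (m : ℝ) ^ r ≤ ((Fintype.piFinset B').card : ℝ) := by
    rw [Fintype.card_piFinset]
    push_cast
    calc γ ^ r * (m : ℝ) ^ r = ∏ _l : Fin r, (γ * m) := by
          rw [Finset.prod_const, Finset.card_univ, Fintype.card_fin, mul_pow]
      _ ≤ ∏ l, ((B' l).card : ℝ) := Finset.prod_le_prod (fun _ _ => by positivity)
          fun l _ => hB'2 l
  have h5 : bb q r θ ζ (i + 1) * n ^ r ≤ θ * m ^ r := by
    have h6 : bb q r θ ζ (i + 1) * n ^ r = θ * (ζ * n / (2 * Ni)) ^ r := by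
      rw [bb, hNi]
      push_cast
      rw [mul_assoc, ← mul_pow]
      congr 2
      ring
    rw [h6]
    gcongr
  have h6 : γ ^ r = 3 * θ := by rw [hθd]; ring
  rw [h6] at h4
  have h7 : 0 < θ * (m : ℝ) ^ r := by positivity
  linarith

end Pool.Agent.Q257.Afl
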