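import Mathlib
import Pool.Agent.Q257.Afl.Lp

/-!
Extraction of a matching from a fractional matching of robust tuples of blocks.
-/

set_option autoImplicit false

namespace Pool.Agent.Q257.Afl

open Finset

variable {κ V : Type} [Fintype κ] [DecidableEq κ] [Fintype V] [DecidableEq V]

/-- type of an edge -/
def ty (P : κ → Finset V) (e : Finset V) : Finset κ := univ.filter (fun i => ¬ Disjoint e (P i))

omit [Fintype V] in
theorem ty_eq {P : κ → Finset V} (hP : ∀ i j, i ≠ j → Disjoint (P i) (P j)) (I : Finset κ)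
    (x : κ → V) (hx : ∀ i ∈ I, x i ∈ P i) : ty P (I.image x) = I := by
  ext i
  unfold ty
  rw [mem_filter, not_disjoint_iff]
  constructor
  · rintro ⟨-, v, h1, h2⟩
    obtain ⟨l, hl, rfl⟩ := mem_image.1 h1
    by_contra hi
    have hne : l ≠ i := fun h => hi (h ▸ hl)
    exact disjoint_left.1 (hP l i hne) (hx l hl) h2
  · intro hi
    exact ⟨mem_univ _, x i, mem_image_of_mem _ hi, hx i hi⟩

theorem extract (P : κ → Finset V) (hP : ∀ i j, i ≠ j → Disjoint (P i) (P j)) (m : ℕ)
    (hm : ∀ i, (P i).card = m) (E : Finset (Finset V)) (G : Finset (Finset κ))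
    (hG : ∀ I ∈ G, I.Nonempty) (γ : ℝ) (hγ : 0 ≤ γ)
    (hrob : ∀ I ∈ G, ∀ B : κ → Finset V, (∀ i ∈ I, B i ⊆ P i) → (∀ i ∈ I, γ * m ≤ (B i).card) →
      ∃ x : κ → V, (∀ i ∈ I, x i ∈ B i) ∧ I.image x ∈ E)
    (w : Finset κ → ℝ) (hw : FM G w) (τ : ℝ) (hτ : τ ≤ ∑ I ∈ G, w I)
    (hGc : G.card ≤ Fintype.card κ) :
    ∃ M ⊆ E, (∀ e ∈ M, ∀ e' ∈ M, e ≠ e' → Disjoint e e') ∧
      (m : ℝ) * τ - Fintype.card κ * (1 + γ * m) ≤ M.card := by
  classical
  let Ok : Finset (Finset V) → Prop := fun M => (∀ e ∈ M, ∀ e' ∈ M, e ≠ e' → Disjoint e e') ∧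
    (∀ e ∈ M, e ∈ E ∧ ∃ I ∈ G, ∃ x : κ → V, (∀ i ∈ I, x i ∈ P i) ∧ e = I.image x) ∧
    ∀ I ∈ G, ((M.filter (fun e => ty P e = I)).card : ℝ) ≤ w I * m
  obtain ⟨M, hM, hmax⟩ := Finset.exists_max_image (univ.filter Ok) (fun M => M.card)
    ⟨∅, by
      simp only [mem_filter, mem_univ, true_and, Ok]
      refine ⟨by simp, by simp, fun I hI => ?_⟩
      simp only [filter_empty, card_empty, Nat.cast_zero]
      have := hw.1 I hI
      positivity⟩
  obtain ⟨hM1, hM2, hM3⟩ := (mem_filter.1 hM).2
  have htyG : ∀ e ∈ M, ty P e ∈ G := by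
    intro e he
    obtain ⟨-, I, hI, x, hx, rfl⟩ := hM2 e he
    rw [ty_eq hP I x hx]
    exact hI
  have hcap : ∀ e ∈ M, ∀ i, (P i ∩ e).card ≤ if i ∈ ty P e then 1 else 0 := by
    intro e he i
    obtain ⟨-, I, hI, x, hx, rfl⟩ := hM2 e he
    rw [ty_eq hP I x hx]
    split_ifs with h
    · have h1 : ∀ v ∈ P i ∩ I.image x, v = x i := by
        intro v hv
        rw [mem_inter] at hv
        obtain ⟨l, hl, rfl⟩ := mem_image.1 hv.2
        by_contra hne
        have hli : l ≠ i := fun h => hne (by rw [h])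
        exact disjoint_left.1 (hP l i hli) (hx l hl) hv.1
      rw [Finset.card_le_one]
      intro a ha b hb
      rw [h1 a ha, h1 b hb]
    · rw [Nat.le_zero, card_eq_zero, ← disjoint_iff_inter_eq_empty, disjoint_left]
      intro v hv hv2
      obtain ⟨l, hl, rfl⟩ := mem_image.1 hv2
      have hli : l ≠ i := fun h' => h (h' ▸ hl)
      exact disjoint_left.1 (hP l i hli) (hx l hl) hv
  have hused : ∀ i, ((P i ∩ M.biUnion id).card : ℝ) ≤
      ∑ J ∈ G.filter (fun J => i ∈ J), ((M.filter (fun e => ty P e = J)).card : ℝ) := by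
    intro i
    have h1 : (P i ∩ M.biUnion id).card ≤ ∑ e ∈ M, (P i ∩ e).card := by
      rw [Finset.inter_biUnion]
      exact Finset.card_biUnion_le
    have h2 : ∑ e ∈ M, (P i ∩ e).card ≤ (M.filter (fun e => i ∈ ty P e)).card := by
      rw [Finset.card_filter]
      exact Finset.sum_le_sum fun e he => hcap e he i
    have h3 : (M.filter (fun e => i ∈ ty P e)).card =
        ∑ J ∈ G.filter (fun J => i ∈ J), ((M.filter (fun e => i ∈ ty P e)).filter
          (fun e => ty P e = J)).card := by
      refine Finset.card_eq_sum_card_fiberwise (f := ty P) ?_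
      intro e he
      simp only [coe_filter, Set.mem_ofPred_eq] at he ⊢
      exact ⟨htyG e he.1, he.2⟩
    have h4 : ∀ J ∈ G.filter (fun J => i ∈ J), ((M.filter (fun e => i ∈ ty P e)).filter
          (fun e => ty P e = J)).card ≤ (M.filter (fun e => ty P e = J)).card := by
      intro J _
      refine Finset.card_le_card ?_
      intro e he
      rw [mem_filter, mem_filter] at he
      exact mem_filter.2 ⟨he.1.1, he.2⟩
    have h5 := Finset.sum_le_sum h4
    have h6 := h1.trans (h2.trans (h3.le.trans h5))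
    exact_mod_cast h6
  have hkey : ∀ I ∈ G, w I * m - 1 - γ * m ≤ ((M.filter (fun e => ty P e = I)).card : ℝ) := by
    intro I hI
    by_contra hlt
    push Not at hlt
    have hB : ∀ i ∈ I, γ * m ≤ ((P i \ M.biUnion id).card : ℝ) := by
      intro i hi
      have h1 : ((P i \ M.biUnion id).card : ℝ) = m - ((P i ∩ M.biUnion id).card : ℝ) := by
        have := Finset.card_sdiff_add_card_inter (P i) (M.biUnion id)
        rw [hm i] at this
        have h2 : ((P i \ M.biUnion id).card : ℝ) + ((P i ∩ M.biUnion id).card : ℝ) = m := by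
          exact_mod_cast this
        linarith
      have h2 : ∑ J ∈ G.filter (fun J => i ∈ J), ((M.filter (fun e => ty P e = J)).card : ℝ) ≤
          m - 1 - γ * m := by
        have hmem : I ∈ G.filter (fun J => i ∈ J) := mem_filter.2 ⟨hI, hi⟩
        rw [← Finset.add_sum_erase _ _ hmem]
        have h3 : ∑ J ∈ (G.filter (fun J => i ∈ J)).erase I,
            ((M.filter (fun e => ty P e = J)).card : ℝ) ≤
            ∑ J ∈ (G.filter (fun J => i ∈ J)).erase I, w J * m :=
          Finset.sum_le_sum fun J hJ => hM3 J (mem_filter.1 (mem_of_mem_erase hJ)).1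
        have h4 := hw.2 i
        rw [← Finset.add_sum_erase _ _ hmem] at h4
        have h5 : (w I + ∑ J ∈ (G.filter (fun J => i ∈ J)).erase I, w J) * m ≤ 1 * m :=
          mul_le_mul_of_nonneg_right h4 (Nat.cast_nonneg _)
        rw [add_mul, Finset.sum_mul] at h5
        linarith
      have h3 := hused i
      rw [h1]
      linarith
    obtain ⟨x, hx1, hx2⟩ := hrob I hI (fun i => P i \ M.biUnion id) (fun i _ => sdiff_subset) hB
    have hxP : ∀ i ∈ I, x i ∈ P i := fun i hi => (mem_sdiff.1 (hx1 i hi)).1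
    have hdis : ∀ e ∈ M, Disjoint (I.image x) e := by
      intro e he
      rw [disjoint_left]
      intro v hv hve
      obtain ⟨l, hl, rfl⟩ := mem_image.1 hv
      exact (mem_sdiff.1 (hx1 l hl)).2 (mem_biUnion.2 ⟨e, he, hve⟩)
    have hnot : I.image x ∉ M := by
      intro h
      have h1 := hdis _ h
      rw [disjoint_self_iff_empty, image_eq_empty] at h1
      exact (hG I hI).ne_empty h1
    have hOk : Ok (insert (I.image x) M) := by
      refine ⟨?_, ?_, ?_⟩
      · intro e he e' he' hne
        rw [mem_insert] at he he'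
        rcases he with rfl | he <;> rcases he' with rfl | he'
        · exact absurd rfl hne
        · exact hdis _ he'
        · exact (hdis _ he).symm
        · exact hM1 e he e' he' hne
      · intro e he
        rw [mem_insert] at he
        rcases he with rfl | he
        · exact ⟨hx2, I, hI, x, hxP, rfl⟩
        · exact hM2 e he
      · intro J hJ
        rw [filter_insert, ty_eq hP I x hxP]
        split_ifs with h
        · subst h
          rw [card_insert_of_notMem (fun h => hnot (mem_filter.1 h).1)]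
          push_cast
          have : 0 ≤ γ * m := by positivity
          linarith
        · exact hM3 J hJ
    have h1 := hmax _ (mem_filter.2 ⟨mem_univ _, hOk⟩)
    rw [card_insert_of_notMem hnot] at h1
    omega
  refine ⟨M, fun e he => (hM2 e he).1, hM1, ?_⟩
  have h1 : (M.card : ℝ) = ∑ I ∈ G, ((M.filter (fun e => ty P e = I)).card : ℝ) := by
    have := Finset.card_eq_sum_card_fiberwise (f := ty P) (s := M) (t := G)
      (fun e he => htyG e he)
    exact_mod_cast this
  rw [h1]
  calc (m : ℝ) * τ - Fintype.card κ * (1 + γ * m) ≤ m * ∑ I ∈ G, w I - G.card * (1 + γ * m) := by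
        have h2 : (m : ℝ) * τ ≤ m * ∑ I ∈ G, w I := mul_le_mul_of_nonneg_left hτ (Nat.cast_nonneg _)
        have h3 : (G.card : ℝ) * (1 + γ * m) ≤ Fintype.card κ * (1 + γ * m) := by
          refine mul_le_mul_of_nonneg_right (by exact_mod_cast hGc) (by positivity)
        linarith
    _ = ∑ I ∈ G, (w I * m - 1 - γ * m) := by
        rw [sum_sub_distrib, sum_sub_distrib, ← Finset.sum_mul]
        simp only [sum_const, nsmul_eq_mul, mul_one]
        ring
    _ ≤ _ := Finset.sum_le_sum hkey

end Pool.Agent.Q257.Afl
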