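import Mathlib

/-!
Random sampling of `k` elements of a finite set.
-/

set_option autoImplicit false

namespace Pool.Agent.Q257.Afl

open Finset

variable {κ : Type} [Fintype κ] [DecidableEq κ]

theorem fib_card {k r : ℕ} (f : Fin r → Fin k) (hf : Function.Injective f) (b : Fin r → κ) :
    (Fintype.card κ) ^ r * (univ.filter (fun g : Fin k → κ => g ∘ f = b)).card =
      (Fintype.card κ) ^ k := by
  classical
  have e : (univ.filter (fun g : Fin k → κ => g ∘ f = b)) =
      Fintype.piFinset (fun a => if h : ∃ l, f l = a then {b h.choose} else univ) := by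
    ext g
    rw [mem_filter, Fintype.mem_piFinset]
    constructor
    · rintro ⟨-, h⟩ a
      split_ifs with h1
      · rw [mem_singleton, ← h]
        simp only [Function.comp_apply]
        rw [h1.choose_spec]
      · exact mem_univ _
    · intro h
      refine ⟨mem_univ _, ?_⟩
      funext l
      have h1 : ∃ l', f l' = f l := ⟨l, rfl⟩
      have h2 := h (f l)
      rw [dif_pos h1, mem_singleton, hf h1.choose_spec] at h2
      exact h2
  have e2 : ∀ a, (if h : ∃ l, f l = a then ({b h.choose} : Finset κ) else univ).card =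
      if a ∈ univ.image f then 1 else Fintype.card κ := by
    intro a
    by_cases h : ∃ l, f l = a
    · rw [dif_pos h, if_pos (by simpa using h), card_singleton]
    · rw [dif_neg h, if_neg (by simpa using h), Finset.card_univ]
  rw [e, Fintype.card_piFinset]
  simp only [e2]
  rw [Finset.prod_ite, Finset.prod_const_one, one_mul, Finset.prod_const, ← pow_add]
  congr 1
  have h1 : (univ.filter (fun a => ¬ a ∈ univ.image f)).card + (univ.image f).card = k := by
    have := Finset.card_filter_add_card_filter_not (s := (univ : Finset (Fin k)))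
      (fun a => a ∈ univ.image f)
    rw [Finset.card_univ, Fintype.card_fin] at this
    have h2 : univ.filter (fun a => a ∈ univ.image f) = univ.image f := by ext; simp
    rw [h2] at this
    omega
  rw [card_image_of_injective _ hf, Finset.card_univ, Fintype.card_fin] at h1
  omega

theorem fib_sum {k r : ℕ} (f : Fin r → Fin k) (hf : Function.Injective f) (F : (Fin r → κ) → ℝ) :
    (Fintype.card κ : ℝ) ^ r * ∑ g : Fin k → κ, F (g ∘ f) =
      (Fintype.card κ : ℝ) ^ k * ∑ b, F b := by
  classical
  have e : ∑ g : Fin k → κ, F (g ∘ f) =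
      ∑ b, ((univ.filter (fun g : Fin k → κ => g ∘ f = b)).card : ℝ) * F b := by
    rw [← Finset.sum_fiberwise univ (fun g : Fin k → κ => g ∘ f) (fun g => F (g ∘ f))]
    refine Finset.sum_congr rfl fun b _ => ?_
    rw [← nsmul_eq_mul, ← Finset.sum_const]
    refine Finset.sum_congr rfl fun g hg => ?_
    rw [(mem_filter.1 hg).2]
  rw [e, Finset.mul_sum, Finset.mul_sum]
  refine Finset.sum_congr rfl fun b _ => ?_
  rw [← mul_assoc]
  congr 1
  exact_mod_cast fib_card f hf b

theorem bad_count {k r : ℕ} (f : Fin r → Fin k) (hf : Function.Injective f)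
    (B : Finset (Fin r → κ)) (hK : 0 < Fintype.card κ) :
    ((univ.filter (fun g : Fin k → κ => g ∘ f ∈ B)).card : ℝ) =
      (Fintype.card κ : ℝ) ^ k * (B.card / (Fintype.card κ : ℝ) ^ r) := by
  classical
  have h := fib_sum f hf (fun b => if b ∈ B then 1 else 0)
  rw [Finset.sum_boole, Finset.sum_boole] at h
  have h2 : univ.filter (fun b => b ∈ B) = B := by ext; simp
  rw [h2] at h
  have h3 : (0 : ℝ) < (Fintype.card κ : ℝ) ^ r := by positivity
  field_simp
  linarith

theorem var_count {k : ℕ} (hk : 1 ≤ k) (d : κ → ℝ) (hd0 : ∑ x, d x = 0) (hd1 : ∀ x, |d x| ≤ 1)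
    (hK : 0 < Fintype.card κ) :
    ∑ g : Fin k → κ, (∑ a, d (g a)) ^ 2 ≤ k * (Fintype.card κ : ℝ) ^ k := by
  classical
  have hKr : (0 : ℝ) < Fintype.card κ := by exact_mod_cast hK
  have e : ∀ g : Fin k → κ, (∑ a, d (g a)) ^ 2 = ∑ a, ∑ b, d (g a) * d (g b) := by
    intro g
    rw [sq, Finset.sum_mul_sum]
  simp only [e]
  rw [Finset.sum_comm]
  have h1 : ∀ a : Fin k, ∑ g : Fin k → κ, ∑ b, d (g a) * d (g b) ≤ (Fintype.card κ : ℝ) ^ k := by
    intro a
    rw [Finset.sum_comm, ← Finset.add_sum_erase univ _ (mem_univ a)]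
    have h2 : ∀ b ∈ univ.erase a, ∑ g : Fin k → κ, d (g a) * d (g b) = 0 := by
      intro b hb
      have hne : b ≠ a := (mem_erase.1 hb).1
      have hinj : Function.Injective (![a, b] : Fin 2 → Fin k) := by
        intro i j hij
        fin_cases i <;> fin_cases j <;> simp_all
      have h3 := fib_sum (![a, b]) hinj (fun z : Fin 2 → κ => d (z 0) * d (z 1))
      simp only [Function.comp_apply, Matrix.cons_val_zero, Matrix.cons_val_one] at h3
      have h4 : ∑ z : Fin 2 → κ, d (z 0) * d (z 1) = 0 := by
        have := Finset.prod_univ_sum (κ := fun _ : Fin 2 => κ) (t := fun _ => univ)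
          (f := fun _ x => d x)
        simp only [Fin.prod_univ_two, hd0, mul_zero, Fintype.piFinset_univ] at this
        exact this.symm
      rw [h4, mul_zero] at h3
      have h5 : (Fintype.card κ : ℝ) ^ 2 ≠ 0 := by positivity
      exact (mul_eq_zero.1 h3).resolve_left h5
    rw [Finset.sum_eq_zero h2, add_zero]
    have hcard : ∑ _g : Fin k → κ, (1 : ℝ) = (Fintype.card κ : ℝ) ^ k := by
      simp
    rw [← hcard]
    refine Finset.sum_le_sum fun g _ => ?_
    rw [← abs_mul_abs_self]
    have := hd1 (g a)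
    have h0 := abs_nonneg (d (g a))
    nlinarith
  calc ∑ a : Fin k, ∑ g : Fin k → κ, ∑ b, d (g a) * d (g b)
      ≤ ∑ _a : Fin k, (Fintype.card κ : ℝ) ^ k := Finset.sum_le_sum fun a _ => h1 a
    _ = k * (Fintype.card κ : ℝ) ^ k := by simp

theorem sample {k q r : ℕ} (hk : 1 ≤ k) (hK : 0 < Fintype.card κ) (c : Fin q → κ → ℝ)
    (hc : ∀ j x, 0 ≤ c j x ∧ c j x ≤ 1) (μ : Fin q → ℝ)
    (hμ : ∀ j, ∑ x, c j x ≤ μ j * Fintype.card κ) (σ : ℝ) (hσ : 0 < σ)
    (B : Finset (Fin r → κ)) (η : ℝ) (hB : (B.card : ℝ) ≤ η * (Fintype.card κ : ℝ) ^ r)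
    (hsmall : (k : ℝ) ^ 2 / Fintype.card κ + (k : ℝ) ^ r * η + q / (k * σ ^ 2) < 1) :
    ∃ g : Fin k → κ, Function.Injective g ∧ (∀ f : Fin r → Fin k, Function.Injective f →
      g ∘ f ∉ B) ∧ ∀ j, ∑ a, c j (g a) ≤ k * (μ j + σ) := by
  classical
  have hKr : (0 : ℝ) < Fintype.card κ := by exact_mod_cast hK
  have hkr : (0 : ℝ) < k := by exact_mod_cast hk
  set N : ℝ := (Fintype.card κ : ℝ) ^ k with hN
  have hNpos : 0 < N := by positivity
  by_contra hcon
  push Not at hcon
  -- bad sets
  let P1 : Fin k → Fin k → Finset (Fin k → κ) := fun a b => univ.filter (fun g => a ≠ b ∧ g a = g b)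
  let P2 : (Fin r → Fin k) → Finset (Fin k → κ) := fun f =>
    univ.filter (fun g => Function.Injective f ∧ g ∘ f ∈ B)
  let P3 : Fin q → Finset (Fin k → κ) := fun j => univ.filter (fun g => k * (μ j + σ) < ∑ a, c j (g a))
  have hcov : (univ : Finset (Fin k → κ)) ⊆
      (univ.biUnion fun a => univ.biUnion fun b => P1 a b) ∪ (univ.biUnion P2) ∪ univ.biUnion P3 := by
    intro g _
    by_cases h1 : Function.Injective g
    · by_cases h2 : ∀ f : Fin r → Fin k, Function.Injective f → g ∘ f ∉ B
      · obtain ⟨j, hj⟩ := hcon g h1 h2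
        refine mem_union_right _ (mem_biUnion.2 ⟨j, mem_univ _, ?_⟩)
        simp only [P3, mem_filter]
        exact ⟨mem_univ _, hj⟩
      · push Not at h2
        obtain ⟨f, hf1, hf2⟩ := h2
        refine mem_union_left _ (mem_union_right _ (mem_biUnion.2 ⟨f, mem_univ _, ?_⟩))
        simp only [P2, mem_filter]
        exact ⟨mem_univ _, hf1, hf2⟩
    · unfold Function.Injective at h1
      push Not at h1
      obtain ⟨a, b, h2, h3⟩ := h1
      refine mem_union_left _ (mem_union_left _ (mem_biUnion.2 ⟨a, mem_univ _,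
        mem_biUnion.2 ⟨b, mem_univ _, ?_⟩⟩))
      simp only [P1, mem_filter]
      exact ⟨mem_univ _, h3, h2⟩
  have hc1 : ∀ a b, ((P1 a b).card : ℝ) ≤ N / Fintype.card κ := by
    intro a b
    by_cases hab : a = b
    · have : P1 a b = ∅ := by
        simp only [P1, filter_eq_empty_iff]
        intro g _ h
        exact h.1 hab
      rw [this]
      simp only [card_empty, Nat.cast_zero]
      positivity
    · have hinj : Function.Injective (![a, b] : Fin 2 → Fin k) := by
        intro i j hij
        fin_cases i <;> fin_cases j <;> simp_all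
      have h3 := bad_count (![a, b]) hinj (univ.filter (fun z : Fin 2 → κ => z 0 = z 1)) hK
      have h4 : P1 a b = univ.filter (fun g : Fin k → κ => g ∘ ![a, b] ∈
          univ.filter (fun z : Fin 2 → κ => z 0 = z 1)) := by
        ext g
        simp only [P1, mem_filter, mem_univ, true_and, Function.comp_apply, Matrix.cons_val_zero,
          Matrix.cons_val_one]
        exact ⟨fun h => h.2, fun h => ⟨hab, h⟩⟩
      have h5 : (univ.filter (fun z : Fin 2 → κ => z 0 = z 1)).card ≤ Fintype.card κ := by
        rw [← Finset.card_univ]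
        refine Finset.card_le_card_of_injOn (fun z => z 0) (fun _ _ => by simp) ?_
        intro z hz z' hz' h
        simp only [coe_filter, mem_univ, true_and, Set.mem_ofPred_eq] at hz hz' h
        funext i
        fin_cases i
        · exact h
        · show z 1 = z' 1
          rw [← hz, ← hz', h]
      rw [h4, h3]
      have h6 : ((univ.filter (fun z : Fin 2 → κ => z 0 = z 1)).card : ℝ) ≤ Fintype.card κ := by
        exact_mod_cast h5
      rw [mul_div_assoc', div_le_div_iff₀ (by positivity) hKr]
      calc N * _ * (Fintype.card κ : ℝ) ≤ N * (Fintype.card κ : ℝ) * Fintype.card κ := by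
            gcongr
        _ = N * (Fintype.card κ : ℝ) ^ 2 := by ring
  have hc2 : ∀ f, ((P2 f).card : ℝ) ≤ N * η := by
    intro f
    have hη : 0 ≤ η := by
      by_contra hneg
      push Not at hneg
      have : η * (Fintype.card κ : ℝ) ^ r < 0 := mul_neg_of_neg_of_pos hneg (by positivity)
      have h0 : (0 : ℝ) ≤ B.card := Nat.cast_nonneg _
      linarith
    by_cases hf : Function.Injective f
    · have h3 := bad_count f hf B hK
      have h4 : P2 f = univ.filter (fun g : Fin k → κ => g ∘ f ∈ B) := by
        ext g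
        simp only [P2, mem_filter, mem_univ, true_and]
        exact ⟨fun h => h.2, fun h => ⟨hf, h⟩⟩
      rw [h4, h3]
      refine mul_le_mul_of_nonneg_left ?_ hNpos.le
      rw [div_le_iff₀ (by positivity)]
      exact hB
    · have : P2 f = ∅ := by
        simp only [P2, filter_eq_empty_iff]
        intro g _ h
        exact hf h.1
      rw [this]
      simp only [card_empty, Nat.cast_zero]
      positivity
  have hc3 : ∀ j, ((P3 j).card : ℝ) ≤ N / (k * σ ^ 2) := by
    intro j
    set m : ℝ := (∑ x, c j x) / Fintype.card κ with hm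
    have hm0 : 0 ≤ m := div_nonneg (Finset.sum_nonneg fun x _ => (hc j x).1) hKr.le
    have hm1 : m ≤ 1 := by
      rw [hm, div_le_one hKr]
      calc ∑ x, c j x ≤ ∑ _x : κ, (1 : ℝ) := Finset.sum_le_sum fun x _ => (hc j x).2
        _ = Fintype.card κ := by simp
    have hmμ : m ≤ μ j := by
      rw [hm, div_le_iff₀ hKr]
      exact hμ j
    have hv := var_count hk (fun x => c j x - m) (by
      rw [sum_sub_distrib]
      simp only [sum_const, Finset.card_univ, nsmul_eq_mul, hm]
      field_simp
      ring) (fun x => by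
        rw [abs_le]
        have := hc j x
        constructor <;> linarith) hK
    have h1 : ((P3 j).card : ℝ) * (k * σ) ^ 2 ≤ ∑ g : Fin k → κ, (∑ a, (c j (g a) - m)) ^ 2 := by
      calc ((P3 j).card : ℝ) * (k * σ) ^ 2 = ∑ _g ∈ P3 j, (k * σ) ^ 2 := by
            rw [sum_const, nsmul_eq_mul]
        _ ≤ ∑ g ∈ P3 j, (∑ a, (c j (g a) - m)) ^ 2 := by
            refine Finset.sum_le_sum fun g hg => ?_
            have hg' := (mem_filter.1 hg).2
            have h2 : k * σ ≤ ∑ a, (c j (g a) - m) := by
              rw [sum_sub_distrib]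
              simp only [sum_const, Finset.card_univ, Fintype.card_fin, nsmul_eq_mul]
              have : k * m ≤ k * μ j := mul_le_mul_of_nonneg_left hmμ hkr.le
              linarith
            have h3 : 0 ≤ k * σ := by positivity
            exact pow_le_pow_left₀ h3 h2 2
        _ ≤ _ := Finset.sum_le_sum_of_subset_of_nonneg (subset_univ _) (fun _ _ _ => sq_nonneg _)
    rw [le_div_iff₀ (by positivity)]
    have h2 := h1.trans hv
    have h3 : ((P3 j).card : ℝ) * (k * σ ^ 2) * k ≤ N * k := by
      calc ((P3 j).card : ℝ) * (k * σ ^ 2) * k = (P3 j).card * (k * σ) ^ 2 := by ring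
        _ ≤ k * N := h2
        _ = N * k := by ring
    exact le_of_mul_le_mul_right h3 hkr
  have htot : N ≤ k ^ 2 * (N / Fintype.card κ) + k ^ r * (N * η) + q * (N / (k * σ ^ 2)) := by
    have h1 : (N : ℝ) = ((univ : Finset (Fin k → κ)).card : ℝ) := by
      simp [hN]
    rw [h1]
    have h2 := Finset.card_le_card hcov
    have h3 : ((univ : Finset (Fin k → κ)).card : ℝ) ≤
        (((univ.biUnion fun a => univ.biUnion fun b => P1 a b) ∪ (univ.biUnion P2) ∪
          univ.biUnion P3).card : ℝ) := by exact_mod_cast h2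
    refine h3.trans ?_
    rw [← h1]
    have h4 : (((univ.biUnion fun a => univ.biUnion fun b => P1 a b) ∪ (univ.biUnion P2) ∪
          univ.biUnion P3).card : ℝ) ≤ ((univ.biUnion fun a => univ.biUnion fun b => P1 a b).card : ℝ)
          + ((univ.biUnion P2).card : ℝ) + ((univ.biUnion P3).card : ℝ) := by
      have h5 := Finset.card_union_le ((univ.biUnion fun a => univ.biUnion fun b => P1 a b) ∪
        (univ.biUnion P2)) (univ.biUnion P3)
      have h6 := Finset.card_union_le (univ.biUnion fun a => univ.biUnion fun b => P1 a b)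
        (univ.biUnion P2)
      exact_mod_cast h5.trans (Nat.add_le_add_right h6 _)
    refine h4.trans ?_
    have g1 : ((univ.biUnion fun a => univ.biUnion fun b => P1 a b).card : ℝ) ≤
        k ^ 2 * (N / Fintype.card κ) := by
      calc ((univ.biUnion fun a => univ.biUnion fun b => P1 a b).card : ℝ)
          ≤ ∑ a : Fin k, ((univ.biUnion fun b => P1 a b).card : ℝ) := by
            exact_mod_cast Finset.card_biUnion_le
        _ ≤ ∑ _a : Fin k, ∑ _b : Fin k, (N / Fintype.card κ) := by
            refine Finset.sum_le_sum fun a _ => ?_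
            calc ((univ.biUnion fun b => P1 a b).card : ℝ) ≤ ∑ b : Fin k, ((P1 a b).card : ℝ) := by
                  exact_mod_cast Finset.card_biUnion_le
              _ ≤ _ := Finset.sum_le_sum fun b _ => hc1 a b
        _ = k ^ 2 * (N / Fintype.card κ) := by simp; ring
    have g2 : ((univ.biUnion P2).card : ℝ) ≤ k ^ r * (N * η) := by
      calc ((univ.biUnion P2).card : ℝ) ≤ ∑ f : Fin r → Fin k, ((P2 f).card : ℝ) := by
            exact_mod_cast Finset.card_biUnion_le
        _ ≤ ∑ _f : Fin r → Fin k, N * η := Finset.sum_le_sum fun f _ => hc2 f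
        _ = k ^ r * (N * η) := by simp
    have g3 : ((univ.biUnion P3).card : ℝ) ≤ q * (N / (k * σ ^ 2)) := by
      calc ((univ.biUnion P3).card : ℝ) ≤ ∑ j : Fin q, ((P3 j).card : ℝ) := by
            exact_mod_cast Finset.card_biUnion_le
        _ ≤ ∑ _j : Fin q, N / (k * σ ^ 2) := Finset.sum_le_sum fun j _ => hc3 j
        _ = q * (N / (k * σ ^ 2)) := by simp
    linarith
  have hfin : N ≤ N * ((k : ℝ) ^ 2 / Fintype.card κ + (k : ℝ) ^ r * η + q / (k * σ ^ 2)) := by
    refine htot.trans (le_of_eq ?_)
    ring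
  have := mul_lt_mul_of_pos_left hsmall hNpos
  linarith

end Pool.Agent.Q257.Afl
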