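import Mathlib
import Pool.Agent.Q257.Afl.Asym
import Pool.Agent.Q257.Afl.Lp
import Pool.Agent.Q257.Afl.Smp
import Pool.Agent.Q257.Afl.Ext
import Pool.Agent.Q257.Afl.Blk

/-!
Monochromatic matchings in connectors.
-/

set_option autoImplicit false

namespace Pool.Agent.Q257.Afl

open Finset

theorem cover_step (p : ℕ) [Fact p.Prime] (q r k : ℕ) (hq : 1 ≤ q) (hr : 1 ≤ r) {κ : Type}
    [Fintype κ] [DecidableEq κ] (G : Fin q → Finset (Finset κ)) (c : Fin q → κ → ℝ)
    (hc : ∀ j x, 0 ≤ c j x) (hcov : ∀ j, ∀ I ∈ G j, 1 ≤ ∑ i ∈ I, c j i) (g : Fin k → κ)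
    (hg : Function.Injective g)
    (hG : ∀ F : Finset (Fin k), F.card = r → ∃ j, F.image g ∈ G j) (b : Fin q → ℝ)
    (hb : ∀ j, 0 ≤ b j) (hsum : ∀ j, ∑ a, c j (g a) ≤ b j) (hbp : ∀ j, b j + 1 ≤ p)
    (hk : ((r : ℝ) - 1) * p + ∑ j, b j + 1 ≤ k) : False := by
  classical
  let col : Finset (Fin k) → Fin q := fun F =>
    if h : ∃ j, F.image g ∈ G j then h.choose else ⟨0, hq⟩
  have hcol : ∀ F : Finset (Fin k), F.card = r → F.image g ∈ G (col F) := by
    intro F hF
    have h := hG F hF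
    simp only [col, dif_pos h]
    exact h.choose_spec
  obtain ⟨j, M, hM1, hM2, hM3⟩ := afl_asym p q r k hq hr (fun j => ⌊b j⌋₊ + 1) (fun j => by omega)
    (fun j => by
      have h1 : (⌊b j⌋₊ : ℝ) ≤ b j := Nat.floor_le (hb j)
      have h2 : ((⌊b j⌋₊ + 1 : ℕ) : ℝ) ≤ p := by
        push_cast
        linarith [hbp j]
      exact_mod_cast h2) (by
      have h1 : ∑ j, ((⌊b j⌋₊ : ℕ) : ℝ) ≤ ∑ j, b j :=
        Finset.sum_le_sum fun j _ => Nat.floor_le (hb j)
      have h2 : (((r - 1) * p + ∑ j, (⌊b j⌋₊ + 1 - 1) + 1 : ℕ) : ℝ) ≤ k := by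
        push_cast [Nat.cast_sub hr, Nat.add_sub_cancel]
        linarith
      exact_mod_cast h2) col
  have h1 : (M.card : ℝ) ≤ ∑ a, c j (g a) := by
    calc (M.card : ℝ) = ∑ _F ∈ M, (1 : ℝ) := by simp
      _ ≤ ∑ F ∈ M, ∑ a ∈ F, c j (g a) := by
          refine Finset.sum_le_sum fun F hF => ?_
          have h2 := hcol F (hM2 F hF).1
          rw [(hM2 F hF).2] at h2
          have h3 := hcov j _ h2
          rwa [Finset.sum_image (fun x _ y _ h => hg h)] at h3
      _ = ∑ a ∈ M.biUnion (fun F => F), c j (g a) := by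
          rw [Finset.sum_biUnion (fun A hA B hB hne => hM3 A hA B hB hne)]
      _ ≤ ∑ a, c j (g a) := Finset.sum_le_sum_of_subset_of_nonneg (subset_univ _)
          fun _ _ _ => hc j _
  have h2 := Nat.lt_floor_add_one (b j)
  rw [hM1] at h1
  push_cast at h1
  linarith [hsum j]

theorem main_eps (q r : ℕ) (hq : 1 ≤ q) (hr : 2 ≤ r) (ε : ℝ) (hε : 0 < ε) (hε1 : ε ≤ 1) :
    ∃ δ : ℝ, 0 < δ ∧ ∀ (V : Type) [Fintype V] [DecidableEq V] (s : ℕ) (H : Finset (Finset V))
      (col : Finset V → Fin q) (t : Fin q → ℕ), 1 ≤ s → IsConn s r H → (∀ j, 1 ≤ t j) →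
      (s : ℝ) ≤ δ * Fintype.card V →
      ((r : ℝ) - 1) * (univ.sup t : ℕ) + ∑ j, ((t j : ℝ) - 1) + 1 + ε * Fintype.card V ≤
        Fintype.card V →
      ∃ j, ∃ M ⊆ H, M.card = t j ∧ (∀ e ∈ M, col e = j) ∧
        ∀ e ∈ M, ∀ e' ∈ M, e ≠ e' → Disjoint e e' := by
  classical
  have hqr : (1 : ℝ) ≤ q := by exact_mod_cast hq
  have hrr : (2 : ℝ) ≤ r := by exact_mod_cast hr
  set σ : ℝ := ε / (8 * (r + q)) with hσd
  have hσ : 0 < σ := by positivity
  have hσε : σ * (8 * (r + q)) = ε := by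
    rw [hσd]
    field_simp
  have hrq : (r : ℝ) * σ + q * σ = ε / 8 := by linarith
  have hσ24 : 24 * σ ≤ ε := by
    have h1 : 3 * σ ≤ (r + q) * σ := mul_le_mul_of_nonneg_right (by linarith) hσ.le
    linarith
  obtain ⟨p, hpge, hp⟩ := Nat.exists_infinite_primes (⌈6 * q / σ ^ 2 + 4 + 2 / σ⌉₊)
  have : Fact p.Prime := ⟨hp⟩
  have hpr : 6 * q / σ ^ 2 + 4 + 2 / σ ≤ p := (Nat.le_ceil _).trans (by exact_mod_cast hpge)
  have hppos : (0 : ℝ) < p := lt_of_lt_of_le (by positivity) hpr
  set k1 : ℝ := p / (3 * σ) with hk1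
  have hk1pos : 0 < k1 := by positivity
  set ζ : ℝ := min (min (σ / 8) (1 / 2)) (1 / (12 * k1 ^ 2)) with hζd
  have hζ : 0 < ζ := by
    rw [hζd]
    refine lt_min (lt_min (by positivity) (by norm_num)) (by positivity)
  have hζ1 : ζ ≤ σ / 8 := (min_le_left _ _).trans (min_le_left _ _)
  have hζ2 : ζ ≤ 1 / 2 := (min_le_left _ _).trans (min_le_right _ _)
  have hζ3 : ζ * (12 * k1 ^ 2) ≤ 1 := by
    have h := min_le_right (min (σ / 8) (1 / 2)) (1 / (12 * k1 ^ 2))
    rw [← hζd, le_div_iff₀ (by positivity)] at h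
    exact h
  set η : ℝ := 1 / (4 * k1 ^ r) with hηd
  have hη : 0 < η := by positivity
  set γ : ℝ := σ / 8 with hγd
  have hγ : 0 < γ := by positivity
  obtain ⟨N0, hN0, hblk⟩ := blocks q r (by omega) ζ γ η hζ hζ2 hγ hη
  have hN0r : (1 : ℝ) ≤ N0 := by exact_mod_cast hN0
  set Q : ℝ := 1 + 2 * N0 / ζ + 8 * N0 / (ζ * σ) + 4 * q / ε with hQ
  have hQpos : 0 < Q := by positivity
  refine ⟨1 / Q, by positivity, ?_⟩
  intro V _ _ s H col t hs hconn ht hsn hmain
  set n : ℝ := (Fintype.card V : ℝ) with hnd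
  have hsr : (1 : ℝ) ≤ s := by exact_mod_cast hs
  have hsQ : s * Q ≤ n := by
    rw [one_div, inv_mul_eq_div, le_div_iff₀ hQpos] at hsn
    exact hsn
  have e1 : 0 ≤ 2 * (N0 : ℝ) / ζ := by positivity
  have e2 : 0 ≤ 8 * (N0 : ℝ) / (ζ * σ) := by positivity
  have e3 : 0 ≤ 4 * (q : ℝ) / ε := by positivity
  have hQn : Q ≤ n := by
    have h1 : 1 * Q ≤ s * Q := mul_le_mul_of_nonneg_right hsr hQpos.le
    linarith
  have hn1 : 2 * N0 / ζ ≤ n := by linarith
  have hn2 : 8 * N0 / (ζ * σ) ≤ n := by linarith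
  have hn3 : 4 * q / ε ≤ n := by linarith
  have hn0 : 1 ≤ n := by linarith
  have hs2 : (s : ℝ) ≤ ζ * n / (2 * N0) := by
    have h1 : s * (2 * N0 / ζ) ≤ n := by
      refine le_trans (mul_le_mul_of_nonneg_left ?_ (by positivity)) hsQ
      linarith
    rw [le_div_iff₀ (by positivity)]
    have h2 : s * (2 * N0 / ζ) * ζ ≤ n * ζ := mul_le_mul_of_nonneg_right h1 hζ.le
    have h3 : s * (2 * N0 / ζ) * ζ = s * (2 * N0) := by field_simp
    linarith
  obtain ⟨Pt, m, B, hm1, hPc, hPd, hK1, hK2, hmlo, hmhi, hBc, hrobB⟩ := hblk V s H col hconn hn1 hs2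
  have hmr : (1 : ℝ) ≤ m := by exact_mod_cast hm1
  set K : ℝ := (Pt.card : ℝ) with hKd
  have hKlo : 1 / (2 * ζ) ≤ K := by
    have h1 : (1 - ζ) * n ≤ K * (ζ * n) :=
      hK1.trans (mul_le_mul_of_nonneg_left hmhi (Nat.cast_nonneg _))
    have h2 : (1 - ζ) ≤ K * ζ := by
      have : (1 - ζ) * n ≤ (K * ζ) * n := by linarith
      exact le_of_mul_le_mul_right this (by linarith)
    rw [div_le_iff₀ (by positivity)]
    linarith
  have hKpos : 0 < K := lt_of_lt_of_le (by positivity) hKlo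
  have hKhi : K ≤ σ * n / 4 := by
    have h1 : K * (ζ * n / (2 * N0)) ≤ n :=
      (mul_le_mul_of_nonneg_left hmlo hKpos.le).trans hK2
    have h2 : K * ζ ≤ 2 * N0 := by
      have : (K * ζ) * n ≤ (2 * N0) * n := by
        have h3 : K * (ζ * n / (2 * N0)) * (2 * N0) = K * ζ * n := by field_simp
        rw [← h3]
        have := mul_le_mul_of_nonneg_right h1 (show (0 : ℝ) ≤ 2 * N0 by positivity)
        linarith
      exact le_of_mul_le_mul_right this (by linarith)
    have h3 : 8 * N0 ≤ n * (ζ * σ) := by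
      rwa [div_le_iff₀ (by positivity)] at hn2
    have h4 : K * ζ ≤ (σ * n / 4) * ζ := by linarith
    exact le_of_mul_le_mul_right h4 hζ
  let κ := {A // A ∈ Pt}
  have hcardκ : Fintype.card κ = Pt.card := Fintype.card_coe Pt
  have hcardκr : (Fintype.card κ : ℝ) = K := by rw [hcardκ]
  let E : Fin q → Finset (Finset V) := fun j => H.filter (fun e => col e = j)
  let Rob : Fin q → Finset κ → Prop := fun j I => ∀ B : κ → Finset V, (∀ i ∈ I, B i ⊆ i.1) →
    (∀ i ∈ I, γ * m ≤ (B i).card) → ∃ x : κ → V, (∀ i ∈ I, x i ∈ B i) ∧ I.image x ∈ E j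
  let G : Fin q → Finset (Finset κ) := fun j => univ.filter (fun I => I.card = r ∧ Rob j I)
  have hGne : ∀ j, ∀ I ∈ G j, I.Nonempty := by
    intro j I hI
    have h1 := (mem_filter.1 hI).2.1
    rw [← card_pos]
    omega
  let τ : Fin q → ℝ := fun j => t j / n
  have hτn : ∀ j, τ j * n = t j := fun j => by
    simp only [τ]
    field_simp
  have hτ0 : ∀ j, 0 ≤ τ j := fun j => by positivity
  by_cases hfrac : ∃ j w, FM (G j) w ∧ (τ j + σ) * K ≤ ∑ I ∈ G j, w I
  · -- large fractional matching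
    obtain ⟨j, w, hw, hwt⟩ := hfrac
    obtain ⟨G', hG', w', hw', hwt', hc'⟩ := lp_small (G j) (hGne j) _ w hw hwt
    obtain ⟨M, hM1, hM2, hM3⟩ := extract (fun i : κ => i.1)
      (fun i i' h => hPd _ i.2 _ i'.2 (fun h' => h (Subtype.ext h'))) m (fun i => hPc _ i.2)
      (E j) G' (fun I hI => hGne j I (hG' hI)) γ hγ.le
      (fun I hI => (mem_filter.1 (hG' hI)).2.2) w' hw' _ hwt' hc'
    rw [hcardκr] at hM3
    have hτ1 : τ j ≤ 1 := by
      have h1 : (t j : ℝ) ≤ (univ.sup t : ℕ) := by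
        exact_mod_cast Finset.le_sup (f := t) (mem_univ j)
      have h2 : 0 ≤ ∑ j, ((t j : ℝ) - 1) := Finset.sum_nonneg fun j _ => by
        have : (1 : ℝ) ≤ t j := by exact_mod_cast ht j
        linarith
      have h3 : (0 : ℝ) ≤ (univ.sup t : ℕ) := Nat.cast_nonneg _
      have h4 : (t j : ℝ) ≤ n := by
        have h5 : (1 : ℝ) * (univ.sup t : ℕ) ≤ ((r : ℝ) - 1) * (univ.sup t : ℕ) :=
          mul_le_mul_of_nonneg_right (by linarith) h3
        have h6 : 0 < ε * n := by positivity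
        linarith
      rw [show τ j = t j / n from rfl, div_le_one (by linarith)]
      exact h4
    have hcard : (t j : ℝ) ≤ M.card := by
      refine le_trans ?_ hM3
      have h1 : (m : ℝ) * ((τ j + σ) * K) - K * (1 + γ * m) = (τ j + σ - γ) * (K * m) - K := by
        ring
      rw [h1]
      have h2 : (τ j + σ - γ) * ((1 - ζ) * n) ≤ (τ j + σ - γ) * (K * m) := by
        refine mul_le_mul_of_nonneg_left hK1 ?_
        have := hτ0 j
        rw [hγd]
        linarith
      have h3 : (τ j + σ - γ) * ((1 - ζ) * n) ≥ t j + 5 * σ / 8 * n := by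
        have h4 : (τ j + σ - γ) * (1 - ζ) ≥ τ j + 5 * σ / 8 := by
          have h5 : (τ j + σ - γ) * ζ ≤ 2 * ζ := by
            refine mul_le_mul_of_nonneg_right ?_ hζ.le
            rw [hγd]
            have : σ ≤ 1 := by linarith
            linarith
          have h6 : (τ j + σ - γ) * (1 - ζ) = (τ j + σ - γ) - (τ j + σ - γ) * ζ := by ring
          rw [h6, hγd]
          rw [hγd] at h5
          linarith
        have h5 : (τ j + 5 * σ / 8) * n ≤ (τ j + σ - γ) * (1 - ζ) * n :=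
          mul_le_mul_of_nonneg_right h4 (by linarith)
        have h6 := hτn j
        linarith
      have h4 : 0 < σ * n := by positivity
      linarith
    obtain ⟨M', hM'1, hM'2⟩ := Finset.exists_subset_card_eq (s := M) (n := t j) (by exact_mod_cast hcard)
    refine ⟨j, M', fun e he => (mem_filter.1 (hM1 (hM'1 he))).1, hM'2,
      fun e he => (mem_filter.1 (hM1 (hM'1 he))).2, fun e he e' he' => hM2 e (hM'1 he) e' (hM'1 he')⟩
  · exfalso
    push Not at hfrac
    have hdual : ∀ j, ∃ c : κ → ℝ, (∀ i, 0 ≤ c i ∧ c i ≤ 1) ∧ (∀ I ∈ G j, 1 ≤ ∑ i ∈ I, c i) ∧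
        ∑ i, c i ≤ (τ j + σ) * K := by
      intro j
      refine lp_dual (G j) _ ?_
      rintro ⟨w, hw, hwt⟩
      exact absurd hwt (not_le.2 (hfrac j w hw))
    choose c hc1 hc2 hc3 using hdual
    obtain ⟨jm, -, hjm⟩ := Finset.exists_mem_eq_sup (univ : Finset (Fin q))
      ⟨⟨0, hq⟩, mem_univ _⟩ t
    set T : ℝ := τ jm + 3 * σ with hT
    have hTpos : 0 < T := by
      have := hτ0 jm
      positivity
    have hTlo : 3 * σ ≤ T := by
      have := hτ0 jm
      linarith
    have hτle : ∀ j, τ j ≤ τ jm := by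
      intro j
      have h1 : t j ≤ t jm := by
        rw [← hjm]
        exact Finset.le_sup (f := t) (mem_univ j)
      simp only [τ]
      have : (t j : ℝ) ≤ t jm := by exact_mod_cast h1
      gcongr
    have hmain2 : ((r : ℝ) - 1) * τ jm + ∑ j, τ j + ε ≤ 1 + q / n := by
      rw [hjm] at hmain
      have h1 : ∑ j, ((t j : ℝ) - 1) = ∑ j, τ j * n - q := by
        rw [Finset.sum_sub_distrib]
        simp only [hτn, sum_const, card_univ, Fintype.card_fin, nsmul_eq_mul, mul_one]
      rw [h1, ← hτn jm, ← Finset.sum_mul] at hmain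
      have h2 : (((r : ℝ) - 1) * τ jm + ∑ j, τ j + ε) * n ≤ (1 + q / n) * n := by
        have h3 : (1 + (q : ℝ) / n) * n = n + q := by field_simp
        rw [h3]
        linarith
      exact le_of_mul_le_mul_right h2 (by linarith)
    have hqn : (q : ℝ) / n ≤ ε / 4 := by
      rw [div_le_iff₀ hε] at hn3
      rw [div_le_iff₀ (by linarith)]
      linarith
    have hSτ : 0 ≤ ∑ j, τ j := Finset.sum_nonneg fun j _ => hτ0 j
    set k : ℕ := ⌊(p : ℝ) / T⌋₊ with hk
    have hk_hi : (k : ℝ) ≤ p / T := Nat.floor_le (by positivity)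
    have hk_lo : (p : ℝ) / T ≤ k + 1 := (Nat.lt_floor_add_one _).le
    have hk_k1 : (k : ℝ) ≤ k1 := by
      refine hk_hi.trans ?_
      rw [hk1]
      gcongr
    have hrT : ((r : ℝ) - 1) * T ≤ 2 := by
      have h1 : ((r : ℝ) - 1) * τ jm ≤ 1 := by linarith
      have h2 : ((r : ℝ) - 1) * (3 * σ) ≤ 1 := by
        have h3 : 0 ≤ (q : ℝ) * σ := by positivity
        linarith
      rw [hT, mul_add]
      linarith
    have hT2 : T ≤ 2 := by
      have h1 : 1 * T ≤ ((r : ℝ) - 1) * T := mul_le_mul_of_nonneg_right (by linarith) hTpos.le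
      linarith
    have hk_lo2 : (p : ℝ) / 2 ≤ k + 1 := by
      refine le_trans ?_ hk_lo
      gcongr
    have hk_lo3 : 3 * q / σ ^ 2 + 1 + 1 / σ ≤ k := by
      have h1 : 6 * q / σ ^ 2 = 2 * (3 * q / σ ^ 2) := by ring
      have h2 : 2 / σ = 2 * (1 / σ) := by ring
      rw [h1, h2] at hpr
      linarith
    have hkσ : 1 / σ ≤ k := by
      have : 0 ≤ 3 * (q : ℝ) / σ ^ 2 := by positivity
      linarith
    have hkσ2 : 3 * q / σ ^ 2 + 1 ≤ k := by
      have : 0 ≤ 1 / σ := by positivity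
      linarith
    have hkpos : (1 : ℝ) ≤ k := by
      have : 0 ≤ 3 * (q : ℝ) / σ ^ 2 := by positivity
      linarith
    have hk1' : 1 ≤ k := by exact_mod_cast hkpos
    have hkσ' : 1 ≤ k * σ := by
      rw [div_le_iff₀ hσ] at hkσ
      exact hkσ
    obtain ⟨g, hg1, hg2, hg3⟩ := sample (κ := κ) (k := k) (q := q) (r := r) hk1' (by
        have : (0 : ℝ) < Fintype.card κ := by rw [hcardκr]; exact hKpos
        exact_mod_cast this) c (fun j x => hc1 j x) (fun j => τ j + σ) (fun j => by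
        rw [hcardκr]
        exact hc3 j) σ hσ B η (by rw [hcardκr]; exact hBc) (by
        rw [hcardκr]
        have a1 : (k : ℝ) ^ 2 / K ≤ 1 / 6 := by
          rw [div_le_iff₀ hKpos]
          have h1 : (k : ℝ) ^ 2 ≤ k1 ^ 2 := by gcongr
          have h2 : 1 ≤ K * (2 * ζ) := by
            rwa [div_le_iff₀ (by positivity)] at hKlo
          have h3 : ζ * (12 * k1 ^ 2) ≤ K * (2 * ζ) := hζ3.trans h2
          have h4 : (12 * k1 ^ 2) * ζ ≤ (2 * K) * ζ := by linarith
          have h5 := le_of_mul_le_mul_right h4 hζ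
          linarith
        have a2 : (k : ℝ) ^ r * η ≤ 1 / 4 := by
          have h1 : (k : ℝ) ^ r ≤ k1 ^ r := by gcongr
          calc (k : ℝ) ^ r * η ≤ k1 ^ r * η := by gcongr
            _ = 1 / 4 := by
                rw [hηd]
                field_simp
        have a3 : (q : ℝ) / (k * σ ^ 2) ≤ 1 / 3 := by
          rw [div_le_iff₀ (by positivity)]
          have h1 : 3 * q / σ ^ 2 ≤ k := by linarith
          rw [div_le_iff₀ (by positivity)] at h1
          linarith
        linarith)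
    refine cover_step p q r k hq (by omega) G c (fun j x => (hc1 j x).1) hc2 g hg1 ?_
      (fun j => k * (τ j + 2 * σ)) (fun j => by
        have := hτ0 j
        positivity) (fun j => by
        refine (hg3 j).trans (le_of_eq ?_)
        ring) ?_ ?_
    · -- colours
      intro F hF
      obtain ⟨f0⟩ : Nonempty (Fin r ≃ F) := by
        rw [← Fintype.card_eq]
        simp [hF]
      let f : Fin r → Fin k := fun l => (f0 l).1
      have hfinj : Function.Injective f := fun a b h => f0.injective (Subtype.ext h)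
      have hfim : univ.image f = F := by
        ext a
        simp only [mem_image, mem_univ, true_and, f]
        constructor
        · rintro ⟨l, rfl⟩
          exact (f0 l).2
        · intro ha
          exact ⟨f0.symm ⟨a, ha⟩, by simp⟩
      obtain ⟨j, hj⟩ := hrobB (g ∘ f) (hg1.comp hfinj) (hg2 f hfinj)
      refine ⟨j, ?_⟩
      simp only [G, mem_filter, mem_univ, true_and]
      refine ⟨?_, ?_⟩
      · rw [Finset.card_image_of_injective _ hg1, hF]
      intro B' hB1 hB2
      obtain ⟨x, hx1, hx2, hx3⟩ := hj (fun l => B' (g (f l)))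
        (fun l => hB1 _ (mem_image_of_mem _ (by rw [← hfim]; exact mem_image_of_mem _ (mem_univ _))))
        (fun l => hB2 _ (mem_image_of_mem _ (by rw [← hfim]; exact mem_image_of_mem _ (mem_univ _))))
      have hinj : Function.Injective (g ∘ f) := hg1.comp hfinj
      have hVne : Nonempty V := ⟨x ⟨0, by omega⟩⟩
      let y : κ → V := Function.extend (g ∘ f) x (fun _ => x ⟨0, by omega⟩)
      have hy : ∀ l, y (g (f l)) = x l := fun l => hinj.extend_apply x _ l
      have himF : F.image g = univ.image (g ∘ f) := by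
        rw [← hfim, Finset.image_image]
      refine ⟨y, ?_, ?_⟩
      · intro i hi
        rw [himF] at hi
        obtain ⟨l, -, rfl⟩ := mem_image.1 hi
        show y (g (f l)) ∈ B' (g (f l))
        rw [hy]
        exact hx1 l
      · have h1 : (F.image g).image y = univ.image x := by
          rw [himF, Finset.image_image]
          refine Finset.image_congr ?_
          intro l _
          exact hy l
        rw [h1]
        exact mem_filter.2 ⟨hx2, hx3⟩
    · intro j
      have h1 : (k : ℝ) * (τ j + 2 * σ) ≤ k * (T - σ) := by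
        refine mul_le_mul_of_nonneg_left ?_ (by positivity)
        have := hτle j
        rw [hT]
        linarith
      have h2 : (k : ℝ) * T ≤ p := by
        rwa [le_div_iff₀ hTpos] at hk_hi
      have h3 : (k : ℝ) * (T - σ) = k * T - k * σ := by ring
      show (k : ℝ) * (τ j + 2 * σ) + 1 ≤ p
      linarith
    · have h1 : (p : ℝ) ≤ (k + 1) * T := by
        rwa [div_le_iff₀ hTpos] at hk_lo
      have h2 : ((r : ℝ) - 1) * p ≤ (k + 1) * (((r : ℝ) - 1) * T) := by
        have : ((r : ℝ) - 1) * p ≤ ((r : ℝ) - 1) * ((k + 1) * T) :=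
          mul_le_mul_of_nonneg_left h1 (by linarith)
        linarith
      have h3 : ∑ j, (k : ℝ) * (τ j + 2 * σ) = k * (∑ j, τ j + 2 * q * σ) := by
        rw [← Finset.mul_sum, Finset.sum_add_distrib]
        simp only [sum_const, card_univ, Fintype.card_fin, nsmul_eq_mul]
        ring
      rw [h3]
      have h4 : ((r : ℝ) - 1) * T + ∑ j, τ j + 2 * q * σ ≤ 1 - 3 * ε / 8 := by
        rw [hT, mul_add]
        have h5 : ((r : ℝ) - 1) * (3 * σ) + 2 * q * σ ≤ 3 * ε / 8 := by
          have h6 : 0 ≤ (q : ℝ) * σ := by positivity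
          linarith
        linarith
      have h5 : 3 ≤ k * (3 * ε / 8) := by
        have h7 : (k : ℝ) * (3 * σ) ≤ k * (3 * ε / 8) :=
          mul_le_mul_of_nonneg_left (by linarith) (by linarith)
        linarith
      have h6 : (k : ℝ) * (((r : ℝ) - 1) * T + ∑ j, τ j + 2 * q * σ) ≤ k * (1 - 3 * ε / 8) :=
        mul_le_mul_of_nonneg_left h4 (by positivity)
      linarith

end Pool.Agent.Q257.Afl
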